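import Mathlib

/-!
# The Hankel data of a coprime pair `p, r` with `p(0) = 1`
-/

set_option autoImplicit false
set_option linter.unusedSectionVars false

open Matrix Finset Polynomial

namespace Pool.Agent.N37.HR

section abstract

variable {R S : Type} [CommRing R] [CommRing S] [Algebra R S] {n : ℕ} (hn : 0 < n)
  (bs : Module.Basis (Fin n) R S) (y : S) (hbs : ∀ i, bs i = y ^ (i : ℕ))

/-- the top coordinate -/
noncomputable def tau : S →ₗ[R] R := bs.coord ⟨n - 1, by omega⟩

/-- the Hankel matrix of `tau` -/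
noncomputable def TT : Matrix (Fin n) (Fin n) R := Matrix.of fun i j => tau hn bs (y ^ ((i : ℕ) + j))

include hbs

theorem tau_small (l : ℕ) (hl : l < n) : tau hn bs (y ^ l) = if l = n - 1 then 1 else 0 := by
  have h1 : y ^ l = bs ⟨l, hl⟩ := (hbs ⟨l, hl⟩).symm
  rw [h1, tau, Module.Basis.coord_apply, Module.Basis.repr_self, Finsupp.single_apply]
  simp [Fin.ext_iff]

theorem TT_mul (a : S) (i j : Fin n) :
    (TT hn bs y * Algebra.leftMulMatrix bs a) i j = tau hn bs (y ^ (i : ℕ) * (a * y ^ (j : ℕ))) := by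
  rw [Matrix.mul_apply]
  have h1 : a * y ^ (j : ℕ) = ∑ l, bs.repr (a * bs j) l • bs l := by
    rw [bs.sum_repr, hbs]
  rw [h1, Finset.mul_sum, map_sum]
  refine Finset.sum_congr rfl fun l _ => ?_
  rw [Algebra.leftMulMatrix_eq_repr_mul, mul_smul_comm, map_smul, smul_eq_mul, mul_comm]
  congr 1
  rw [TT, Matrix.of_apply, pow_add, hbs l]

theorem TT_inv : ∃ X : Matrix (Fin n) (Fin n) R, X * TT hn bs y = 1 := by
  let T' : Matrix (Fin n) (Fin n) R := (TT hn bs y).submatrix id Fin.rev
  have hT' : ∀ i j, T' i j = tau hn bs (y ^ ((i : ℕ) + (n - 1 - j))) := by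
    intro i j
    show tau hn bs (y ^ ((i : ℕ) + (Fin.rev j : ℕ))) = _
    congr 3
    rw [Fin.val_rev]
    omega
  have hlow : T'.IsLowerTriangular := by
    intro i j hij
    rw [hT', tau_small hn bs y hbs]
    · rw [if_neg]
      have h1 : (i : ℕ) < j := by
        simpa using hij
      omega
    · have h1 : (i : ℕ) < j := by
        simpa using hij
      omega
  have hdet : T'.det = 1 := by
    rw [Matrix.det_of_isLowerTriangular T' hlow]
    apply Finset.prod_eq_one
    intro i _
    rw [hT', tau_small hn bs y hbs]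
    · rw [if_pos]
      have := i.2
      omega
    · have := i.2
      omega
  have hu : IsUnit T'.det := by rw [hdet]; exact isUnit_one
  refine ⟨(T'⁻¹).submatrix Fin.rev id, ?_⟩
  rw [mul_eq_one_comm]
  have h1 : TT hn bs y = T'.submatrix id Fin.revPerm := by
    ext i j
    show _ = TT hn bs y i (Fin.rev (Fin.rev j))
    rw [Fin.rev_rev]
  rw [h1]
  have h2 := Matrix.submatrix_mul_equiv T' T'⁻¹ (id : Fin n → Fin n) Fin.revPerm (id : Fin n → Fin n)
  have h3 : (T'⁻¹).submatrix Fin.rev id = (T'⁻¹).submatrix Fin.revPerm (id : Fin n → Fin n) := rfl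
  rw [h3, h2, Matrix.mul_nonsing_inv _ hu, Matrix.submatrix_id_id]

end abstract

section concrete

variable {R : Type} [CommRing R] [IsDomain R]

/-- the moments -/
def mom (r : R[X]) (t : ℕ → R) (D j : ℕ) : R := ∑ i ∈ range (D + 1), r.coeff i * t (D - i + j)

theorem data (p r : R[X]) (hp0 : p.coeff 0 = 1) (n : ℕ) (hn : p.natDegree = n) (hn0 : 0 < n)
    (hcop : IsCoprime p r) (D : ℕ) (hD : r.natDegree ≤ D) :
    ∃ (t : ℕ → R) (G C W : Matrix (Fin n) (Fin n) R) (m : ℕ),
      (∀ l, l + 1 < n → t l = 0) ∧ t (n - 1) = 1 ∧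
      (∀ l, ∑ i ∈ range (n + 1), p.coeff (n - i) * t (l + i) = 0) ∧
      (∀ i j, G i j = mom r t D ((i : ℕ) + j)) ∧
      (∀ i j, (G * C) i j = mom r t D ((i : ℕ) + j + 1)) ∧ Gᵀ = G ∧ (G * C)ᵀ = G * C ∧
      G.det ≠ 0 ∧ W * G = C ^ m ∧ (∑ i ∈ range (n + 1), p.coeff (n - i) • C ^ i = 0) ∧
      (∀ j (h : j < n), C ^ j *ᵥ Pi.single (⟨0, hn0⟩ : Fin n) 1 = Pi.single ⟨j, h⟩ 1) := by
  set ph : R[X] := reflect n p with hph
  have hphc : ∀ i, i ≤ n → ph.coeff i = p.coeff (n - i) := by
    intro i hi
    rw [hph, coeff_reflect, revAt_le hi]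
  have hphdeg : ph.natDegree ≤ n := by
    refine le_trans natDegree_reflect_le ?_
    simp [hn]
  have hmon : ph.Monic := by
    apply monic_of_natDegree_le_of_coeff_eq_one n hphdeg
    rw [hphc n le_rfl, Nat.sub_self, hp0]
  have hphn : ph.natDegree = n := by
    apply le_antisymm hphdeg
    apply le_natDegree_of_ne_zero
    rw [hphc n le_rfl, Nat.sub_self, hp0]
    exact one_ne_zero
  let S := AdjoinRoot ph
  let y : S := AdjoinRoot.root ph
  let pb := AdjoinRoot.powerBasis' hmon
  let bs : Module.Basis (Fin n) R S := pb.basis.reindex (finCongr hphn)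
  have hbs : ∀ i, bs i = y ^ (i : ℕ) := by
    intro i
    rw [Module.Basis.reindex_apply, pb.basis_eq_pow]
    rfl
  have hroot : aeval y ph = 0 := by
    have := AdjoinRoot.eval₂_root ph
    rw [aeval_def]
    exact this
  have hroot' : ∑ i ∈ range (n + 1), p.coeff (n - i) • y ^ i = 0 := by
    rw [aeval_eq_sum_range, hphn] at hroot
    rw [← hroot]
    refine Finset.sum_congr rfl fun i hi => ?_
    rw [hphc i (by simpa [Nat.lt_succ_iff] using hi)]
  let t : ℕ → R := fun l => tau hn0 bs (y ^ l)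
  let rh : S := aeval y (reflect D r)
  let Λ := Algebra.leftMulMatrix bs
  obtain ⟨X, hX⟩ := TT_inv hn0 bs y hbs
  obtain ⟨a, b, hab⟩ := hcop
  -- moments
  have hrh : ∀ j, tau hn0 bs (rh * y ^ j) = mom r t D j := by
    intro j
    have h1 : rh = ∑ i ∈ range (D + 1), r.coeff i • y ^ (D - i) := by
      have h2 : (reflect D r).natDegree < D + 1 := by
        refine lt_of_le_of_lt natDegree_reflect_le ?_
        simp [hD, Nat.lt_succ_iff]
      show aeval y (reflect D r) = _
      rw [aeval_eq_sum_range' h2]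
      rw [← Finset.sum_range_reflect]
      refine Finset.sum_congr rfl fun i hi => ?_
      have hi' : i ≤ D := by simpa [Nat.lt_succ_iff] using hi
      rw [coeff_reflect, revAt_le (by omega)]
      congr 2
      omega
    rw [h1, Finset.sum_mul, map_sum]
    refine Finset.sum_congr rfl fun i _ => ?_
    rw [smul_mul_assoc, map_smul, smul_eq_mul, ← pow_add]
  have hG1 : ∀ i j, (TT hn0 bs y * Λ rh) i j = mom r t D ((i : ℕ) + j) := by
    intro i j
    rw [TT_mul hn0 bs y hbs, ← hrh]
    congr 1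
    rw [pow_add]
    ring
  have hG2 : ∀ i j, (TT hn0 bs y * Λ rh * Λ y) i j = mom r t D ((i : ℕ) + j + 1) := by
    intro i j
    rw [Matrix.mul_assoc, ← map_mul, TT_mul hn0 bs y hbs, ← hrh]
    congr 1
    ring
  have hred : Λ y * (∑ i ∈ range n, p.coeff (n - (i + 1)) • Λ y ^ i) =
      (-p.coeff n) • (1 : Matrix (Fin n) (Fin n) R) := by
    have h1 : ∑ i ∈ range (n + 1), p.coeff (n - i) • Λ y ^ i = 0 := by
      have := congrArg Λ hroot'
      rw [map_sum, map_zero] at this
      rw [← this]
      refine Finset.sum_congr rfl fun i _ => ?_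
      rw [map_smul, map_pow]
    rw [Finset.sum_range_succ', pow_zero, Nat.sub_zero] at h1
    rw [Finset.mul_sum]
    have h2 : ∑ i ∈ range n, Λ y * p.coeff (n - (i + 1)) • Λ y ^ i =
        ∑ i ∈ range n, p.coeff (n - (i + 1)) • Λ y ^ (i + 1) := by
      refine Finset.sum_congr rfl fun i _ => ?_
      rw [mul_smul_comm, pow_succ']
    rw [h2, neg_smul]
    exact eq_neg_of_add_eq_zero_left h1
  have hdetC : (Λ y).det ≠ 0 := by
    intro h0
    have h1 := congrArg Matrix.det hred
    rw [Matrix.det_mul, h0, zero_mul, Matrix.det_smul, Matrix.det_one, mul_one] at h1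
    have h2 : (-p.coeff n) ≠ 0 := by
      rw [neg_ne_zero, ← hn]
      intro h3
      have h4 : p = 0 := leadingCoeff_eq_zero.1 h3
      rw [h4] at hp0
      simp at hp0
    exact pow_ne_zero _ h2 h1.symm
  -- the Bezout identity
  let D' : ℕ := max b.natDegree (a.natDegree + n)
  have hbez : rh * aeval y (reflect D' b) = y ^ (D + D') := by
    have h1 : reflect (D + D') (r * b) = reflect D r * reflect D' b :=
      reflect_mul _ _ hD (le_max_left _ _)
    have h2 : r * b = 1 - p * a := by rw [← hab]; ring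
    have h3 : reflect (n + (D + D' - n)) (p * a) = reflect n p * reflect (D + D' - n) a := by
      apply reflect_mul _ _ hn.le
      have : a.natDegree + n ≤ D' := le_max_right _ _
      omega
    have h4 : n + (D + D' - n) = D + D' := by
      have : a.natDegree + n ≤ D' := le_max_right _ _
      omega
    rw [h4] at h3
    show aeval y (reflect D r) * aeval y (reflect D' b) = _
    rw [← map_mul, ← h1, h2, reflect_sub, h3, map_sub, map_mul]
    rw [← hph, hroot, zero_mul, sub_zero, reflect_one, map_pow, aeval_X]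
  refine ⟨t, TT hn0 bs y * Λ rh, Λ y, Λ (aeval y (reflect D' b)) * X, D + D', ?_, ?_, ?_, hG1, hG2,
    ?_, ?_, ?_, ?_, ?_, ?_⟩
  · intro l hl
    show tau hn0 bs (y ^ l) = 0
    rw [tau_small hn0 bs y hbs l (by omega), if_neg (by omega)]
  · show tau hn0 bs (y ^ (n - 1)) = 1
    rw [tau_small hn0 bs y hbs (n - 1) (by omega), if_pos rfl]
  · intro l
    have h1 : ∑ i ∈ range (n + 1), p.coeff (n - i) * t (l + i) =
        tau hn0 bs (y ^ l * ∑ i ∈ range (n + 1), p.coeff (n - i) • y ^ i) := by
      rw [Finset.mul_sum, map_sum]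
      refine Finset.sum_congr rfl fun i _ => ?_
      rw [mul_smul_comm, map_smul, smul_eq_mul, ← pow_add]
    rw [h1, hroot', mul_zero, map_zero]
  · ext i j
    rw [Matrix.transpose_apply, hG1, hG1, add_comm]
  · ext i j
    rw [Matrix.transpose_apply, hG2, hG2, add_comm (j : ℕ) (i : ℕ)]
  · intro h0
    have h1 : (Λ (aeval y (reflect D' b)) * X * (TT hn0 bs y * Λ rh)).det = (Λ y ^ (D + D')).det := by
      congr 1
      rw [← map_pow, ← hbez, mul_comm, map_mul]
      calc Λ (aeval y (reflect D' b)) * X * (TT hn0 bs y * Λ rh)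
          = Λ (aeval y (reflect D' b)) * (X * TT hn0 bs y) * Λ rh := by
            simp only [Matrix.mul_assoc]
        _ = _ := by rw [hX, Matrix.mul_one]
    rw [Matrix.det_mul, h0, mul_zero, Matrix.det_pow] at h1
    exact pow_ne_zero _ hdetC h1.symm
  · rw [← map_pow, ← hbez, mul_comm, map_mul]
    calc Λ (aeval y (reflect D' b)) * X * (TT hn0 bs y * Λ rh)
          = Λ (aeval y (reflect D' b)) * (X * TT hn0 bs y) * Λ rh := by
            simp only [Matrix.mul_assoc]
        _ = _ := by rw [hX, Matrix.mul_one]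
  · have := congrArg Λ hroot'
    rw [map_sum, map_zero] at this
    rw [← this]
    refine Finset.sum_congr rfl fun i _ => ?_
    rw [map_smul, map_pow]
  · intro j hj
    have h1 : (Pi.single (⟨0, hn0⟩ : Fin n) 1 : Fin n → R) = bs.repr 1 := by
      have : (1 : S) = bs ⟨0, hn0⟩ := by rw [hbs]; simp
      rw [this, Module.Basis.repr_self]
      ext i
      rw [Finsupp.single_apply, Pi.single_apply]
      simp [eq_comm]
    rw [h1, ← map_pow, Algebra.leftMulMatrix_mulVec_repr, mul_one]
    have : y ^ j = bs ⟨j, hj⟩ := by rw [hbs]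
    rw [this, Module.Basis.repr_self]
    ext i
    rw [Finsupp.single_apply, Pi.single_apply]
    simp [eq_comm]

end concrete

end Pool.Agent.N37.HR
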