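import Mathlib

/-!
# Maximal integral lattices

`R` is a principal ideal domain with fraction field `F`.  Given a nondegenerate symmetric matrix
`G` over `R`, a `G`-self-adjoint matrix `C` over `R` and `W` with `W * G = C ^ m`, we find a
lattice `L ⊇ R ^ n` in `F ^ n` on which the form is integral and with `C L# ⊆ L`.
-/

set_option autoImplicit false
set_option linter.unusedSectionVars false

open Matrix Finset

namespace Pool.Agent.N37.HR

section lat

variable {R F : Type} [CommRing R] [IsDomain R] [IsPrincipalIdealRing R] [Field F] [Algebra R F]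
  [IsFractionRing R F]

/-- the map `R ^ n → F ^ n` -/
def emb (R F : Type) [CommRing R] [Field F] [Algebra R F] (n : ℕ) :
    (Fin n → R) →ₗ[R] (Fin n → F) := (Algebra.linearMap R F).compLeft (Fin n)

theorem emb_apply {n : ℕ} (z : Fin n → R) (i : Fin n) : emb R F n z i = algebraMap R F (z i) := rfl

theorem map_mulVec' {n m : ℕ} (C : Matrix (Fin n) (Fin m) R) (z : Fin m → R) :
    C.map (algebraMap R F) *ᵥ emb R F m z = emb R F n (C *ᵥ z) := by
  ext i
  simp only [Matrix.mulVec, dotProduct, emb_apply, Matrix.map_apply, map_sum, map_mul]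

variable {n m : ℕ} (G C W : Matrix (Fin n) (Fin n) R)

theorem beta_symm (G : Matrix (Fin n) (Fin n) F) (hG : Gᵀ = G) (x y : Fin n → F) :
    x ⬝ᵥ (G *ᵥ y) = y ⬝ᵥ (G *ᵥ x) := by
  rw [Matrix.dotProduct_mulVec, ← Matrix.mulVec_transpose, hG, dotProduct_comm]

theorem beta_adj (G C : Matrix (Fin n) (Fin n) F) (hG : Gᵀ = G) (hGC : (G * C)ᵀ = G * C)
    (x y : Fin n → F) : (C *ᵥ x) ⬝ᵥ (G *ᵥ y) = x ⬝ᵥ (G *ᵥ (C *ᵥ y)) := by
  rw [beta_symm G hG, Matrix.mulVec_mulVec, beta_symm (G * C) hGC, ← Matrix.mulVec_mulVec]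

theorem beta_adj_pow (G C : Matrix (Fin n) (Fin n) F) (hG : Gᵀ = G) (hGC : (G * C)ᵀ = G * C)
    (j : ℕ) (x y : Fin n → F) : (C ^ j *ᵥ x) ⬝ᵥ (G *ᵥ y) = x ⬝ᵥ (G *ᵥ (C ^ j *ᵥ y)) := by
  induction j generalizing x y with
  | zero => simp
  | succ j ih =>
    rw [pow_succ, ← Matrix.mulVec_mulVec, ih, beta_adj G C hG hGC, Matrix.mulVec_mulVec y C,
      ← pow_succ', pow_succ]

variable (F) in
/-- the admissible lattices -/
def Adm (G C : Matrix (Fin n) (Fin n) R) : Set (Submodule R (Fin n → F)) :=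
  {L | LinearMap.range (emb R F n) ≤ L ∧ (∀ x ∈ L, C.map (algebraMap R F) *ᵥ x ∈ L) ∧
    ∀ x ∈ L, ∀ y ∈ L, x ⬝ᵥ (G.map (algebraMap R F) *ᵥ y) ∈ (algebraMap R F).range}

theorem exists_lattice (hG : Gᵀ = G) (hGC : (G * C)ᵀ = G * C) (hdet : G.det ≠ 0)
    (hW : W * G = C ^ m) :
    ∃ L : Submodule R (Fin n → F), L ∈ Adm F G C ∧
      (∀ x, (∀ y ∈ L, x ⬝ᵥ (G.map (algebraMap R F) *ᵥ y) ∈ (algebraMap R F).range) →
        C.map (algebraMap R F) *ᵥ x ∈ L) ∧ Module.Finite R L := by
  set Gf := G.map (algebraMap R F) with hGf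
  set Cf := C.map (algebraMap R F) with hCf
  set Wf := W.map (algebraMap R F) with hWf
  have hGf' : Gfᵀ = Gf := by rw [hGf, ← Matrix.transpose_map, hG]
  have hGCf : (Gf * Cf)ᵀ = Gf * Cf := by
    rw [hGf, hCf, ← Matrix.map_mul, ← Matrix.transpose_map, hGC]
  have hdetf : IsUnit Gf.det := by
    rw [hGf, ← RingHom.mapMatrix_apply, ← RingHom.map_det]
    exact isUnit_iff_ne_zero.2 ((map_ne_zero_iff _ (IsFractionRing.injective R F)).2 hdet)
  have hpow : ∀ j : ℕ, (C ^ j).map (algebraMap R F) = Cf ^ j := by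
    intro j
    rw [hCf, ← RingHom.mapMatrix_apply, map_pow, RingHom.mapMatrix_apply]
  have hWf' : Wf * Gf = Cf ^ m := by
    rw [hWf, hGf, ← Matrix.map_mul, hW, hpow]
  -- the standard lattice is admissible
  have hstd : LinearMap.range (emb R F n) ∈ Adm F G C := by
    refine ⟨le_refl _, ?_, ?_⟩
    · rintro x ⟨z, rfl⟩
      exact ⟨C *ᵥ z, (map_mulVec' C z).symm⟩
    · rintro x ⟨z, rfl⟩ y ⟨z', rfl⟩
      rw [map_mulVec']
      refine ⟨z ⬝ᵥ (G *ᵥ z'), ?_⟩
      simp only [dotProduct, emb_apply, map_sum, map_mul]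
  -- Zorn
  obtain ⟨L, hstdL, hL, hmax⟩ := zorn_le_nonempty₀ (Adm F G C) (by
    intro c hc hchain L₀ hL₀
    have hne : c.Nonempty := ⟨L₀, hL₀⟩
    have hdir : DirectedOn (· ≤ ·) c := hchain.directedOn
    refine ⟨sSup c, ⟨?_, ?_, ?_⟩, fun z hz => le_sSup hz⟩
    · exact le_trans (hc hL₀).1 (le_sSup hL₀)
    · intro x hx
      obtain ⟨L₁, hL₁, hx₁⟩ := (Submodule.mem_sSup_of_directed hne hdir).1 hx
      exact (le_sSup hL₁ : L₁ ≤ sSup c) ((hc hL₁).2.1 x hx₁)
    · intro x hx y hy
      obtain ⟨L₁, hL₁, hx₁⟩ := (Submodule.mem_sSup_of_directed hne hdir).1 hx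
      obtain ⟨L₂, hL₂, hy₂⟩ := (Submodule.mem_sSup_of_directed hne hdir).1 hy
      obtain ⟨L₃, hL₃, h13, h23⟩ := hdir L₁ hL₁ L₂ hL₂
      exact (hc hL₃).2.2 x (h13 hx₁) y (h23 hy₂)) _ hstd
  have hLC : ∀ (j : ℕ) (x : Fin n → F), x ∈ L → Cf ^ j *ᵥ x ∈ L := by
    intro j
    induction j with
    | zero => intro x hx; simpa using hx
    | succ j ih =>
      intro x hx
      rw [pow_succ, ← Matrix.mulVec_mulVec]
      exact ih _ (hL.2.1 x hx)
  -- the dual of `L` sits in the dual of the standard lattice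
  have hdual : ∀ x : Fin n → F,
      (∀ y ∈ L, x ⬝ᵥ (Gf *ᵥ y) ∈ (algebraMap R F).range) → ∃ z : Fin n → R, Gf *ᵥ x = emb R F n z := by
    intro x hx
    have h1 : ∀ i : Fin n, ∃ r : R, algebraMap R F r = (Gf *ᵥ x) i := by
      intro i
      have h2 : emb R F n (Pi.single i 1) ∈ L := hstdL ⟨_, rfl⟩
      obtain ⟨r, hr⟩ := hx _ h2
      refine ⟨r, ?_⟩
      rw [hr, beta_symm Gf hGf']
      have : emb R F n (Pi.single i 1) = Pi.single i 1 := by
        ext j
        rw [emb_apply]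
        by_cases hj : j = i
        · subst hj; simp
        · simp [hj]
      rw [this, single_one_dotProduct]
    choose z hz using h1
    exact ⟨z, funext fun i => (hz i).symm⟩
  -- main descent
  have hdesc : ∀ j : ℕ, 1 ≤ j → (∀ x : Fin n → F,
      (∀ y ∈ L, x ⬝ᵥ (Gf *ᵥ y) ∈ (algebraMap R F).range) → Cf ^ j *ᵥ x ∈ L) →
      (∀ x : Fin n → F,
      (∀ y ∈ L, x ⬝ᵥ (Gf *ᵥ y) ∈ (algebraMap R F).range) → Cf ^ 1 *ᵥ x ∈ L) := by
    intro j hj
    induction j, hj using Nat.le_induction with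
    | base => exact fun h => h
    | succ j hj ih =>
      intro hP
      apply ih
      -- the dual as a submodule
      let D : Submodule R (Fin n → F) :=
        { carrier := {x | ∀ y ∈ L, x ⬝ᵥ (Gf *ᵥ y) ∈ (algebraMap R F).range}
          add_mem' := by
            intro a b ha hb y hy
            rw [add_dotProduct]
            exact Subring.add_mem _ (ha y hy) (hb y hy)
          zero_mem' := by
            intro y _
            rw [zero_dotProduct]
            exact Subring.zero_mem _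
          smul_mem' := by
            intro c a ha y hy
            rw [smul_dotProduct, Algebra.smul_def]
            exact Subring.mul_mem _ ⟨c, rfl⟩ (ha y hy) }
      let T : (Fin n → F) →ₗ[R] (Fin n → F) := (Cf ^ j).mulVecLin.restrictScalars R
      have hT : ∀ x, T x = Cf ^ j *ᵥ x := fun x => rfl
      have hadm : L ⊔ D.map T ∈ Adm F G C := by
        refine ⟨le_trans hstdL le_sup_left, ?_, ?_⟩
        · intro x hx
          obtain ⟨l, hl, t, ht, rfl⟩ := Submodule.mem_sup.1 hx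
          obtain ⟨d, hd, rfl⟩ := ht
          rw [Matrix.mulVec_add]
          apply Submodule.add_mem_sup (hL.2.1 l hl)
          refine ⟨Cf *ᵥ d, ?_, ?_⟩
          · intro y hy
            rw [beta_adj Gf Cf hGf' hGCf]
            exact hd _ (hL.2.1 y hy)
          · rw [hT, hT, Matrix.mulVec_mulVec, Matrix.mulVec_mulVec, ← pow_succ, ← pow_succ']
        · intro x hx y hy
          obtain ⟨l, hl, t, ht, rfl⟩ := Submodule.mem_sup.1 hx
          obtain ⟨d, hd, rfl⟩ := ht
          obtain ⟨l', hl', t', ht', rfl⟩ := Submodule.mem_sup.1 hy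
          obtain ⟨d', hd', rfl⟩ := ht'
          rw [Matrix.mulVec_add, dotProduct_add, add_dotProduct, add_dotProduct]
          refine Subring.add_mem _ (Subring.add_mem _ (hL.2.2 l hl l' hl') ?_)
            (Subring.add_mem _ ?_ ?_)
          · rw [hT, beta_adj_pow Gf Cf hGf' hGCf]
            exact hd _ (hLC j l' hl')
          · rw [hT, beta_symm Gf hGf', beta_adj_pow Gf Cf hGf' hGCf]
            exact hd' _ (hLC j l hl)
          · rw [hT, hT, beta_adj_pow Gf Cf hGf' hGCf]
            apply hd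
            rw [Matrix.mulVec_mulVec]
            have h2 : Cf ^ j * Cf ^ j = Cf ^ (j - 1) * Cf ^ (j + 1) := by
              rw [← pow_add, ← pow_add]
              congr 1
              omega
            rw [h2, ← Matrix.mulVec_mulVec]
            exact hLC _ _ (hP d' hd')
      intro x hx
      have hle := hmax hadm le_sup_left
      exact hle (Submodule.mem_sup_right ⟨x, hx, rfl⟩)
  have hstart : ∀ x : Fin n → F,
      (∀ y ∈ L, x ⬝ᵥ (Gf *ᵥ y) ∈ (algebraMap R F).range) → Cf ^ (m + 1) *ᵥ x ∈ L := by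
    intro x hx
    obtain ⟨z, hz⟩ := hdual x hx
    have h1 : Cf ^ m *ᵥ x = emb R F n (W *ᵥ z) := by
      rw [← hWf', ← Matrix.mulVec_mulVec, hz, map_mulVec']
    rw [pow_succ', ← Matrix.mulVec_mulVec, h1]
    exact hL.2.1 _ (hstdL ⟨_, rfl⟩)
  refine ⟨L, hL, ?_, ?_⟩
  · intro x hx
    have := hdesc (m + 1) (by omega) hstart x hx
    rwa [pow_one] at this
  · -- finiteness
    let T : (Fin n → F) →ₗ[R] (Fin n → F) := (Gf⁻¹).mulVecLin.restrictScalars R
    have hle : L ≤ LinearMap.range (T.comp (emb R F n)) := by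
      intro x hx
      obtain ⟨z, hz⟩ := hdual x (fun y hy => hL.2.2 x hx y hy)
      refine ⟨z, ?_⟩
      show Gf⁻¹ *ᵥ (emb R F n z) = x
      rw [← hz, Matrix.mulVec_mulVec, Matrix.nonsing_inv_mul _ hdetf, Matrix.one_mulVec]
    have : IsNoetherian R (LinearMap.range (T.comp (emb R F n))) :=
      isNoetherian_of_fg_of_noetherian _ (Submodule.fg_range _)
    have : IsNoetherian R L := isNoetherian_of_le hle
    infer_instance

theorem map_inj' {a b : ℕ} {X Y : Matrix (Fin a) (Fin b) R}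
    (h : X.map (algebraMap R F) = Y.map (algebraMap R F)) : X = Y := by
  ext i j
  exact IsFractionRing.injective R F (congrFun (congrFun h i) j)

/-- the realization by symmetric matrices -/
theorem lat (hG : Gᵀ = G) (hGC : (G * C)ᵀ = G * C) (hdet : G.det ≠ 0)
    (hW : W * G = C ^ m) :
    ∃ (N : ℕ) (B M : Matrix (Fin N) (Fin N) R) (Q : Matrix (Fin N) (Fin n) R)
      (Z : Matrix (Fin n) (Fin N) R),
      Bᵀ = B ∧ Mᵀ = M ∧ Qᵀ * B * Q = G ∧ M * B * Q = Q * C ∧ (M * B) ^ m = Q * Z ∧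
      M.map (algebraMap R F) = Q.map (algebraMap R F) *
        (C.map (algebraMap R F) * (G.map (algebraMap R F))⁻¹) * (Q.map (algebraMap R F))ᵀ := by
  obtain ⟨L, hL, hCL, hfin⟩ := exists_lattice (F := F) G C W hG hGC hdet hW
  set Gf := G.map (algebraMap R F) with hGf
  set Cf := C.map (algebraMap R F) with hCf
  have hGf' : Gfᵀ = Gf := by rw [hGf, ← Matrix.transpose_map, hG]
  have hGCf : (Gf * Cf)ᵀ = Gf * Cf := by
    rw [hGf, hCf, ← Matrix.map_mul, ← Matrix.transpose_map, hGC]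
  have hdetf : IsUnit Gf.det := by
    rw [hGf, ← RingHom.mapMatrix_apply, ← RingHom.map_det]
    exact isUnit_iff_ne_zero.2 ((map_ne_zero_iff _ (IsFractionRing.injective R F)).2 hdet)
  have htf : Module.IsTorsionFree R L := by
    have : Module.IsTorsionFree R (Fin n → F) := inferInstance
    infer_instance
  let N := Module.finrank R L
  let b : Module.Basis (Fin N) R L := Module.finBasis R L
  let P : Matrix (Fin n) (Fin N) F := Matrix.of fun i j => (b j : Fin n → F) i
  have hmem : ∀ i : Fin n, emb R F n (Pi.single i 1) ∈ L := fun i => hL.1 ⟨_, rfl⟩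
  let Q : Matrix (Fin N) (Fin n) R := Matrix.of fun j i => b.repr ⟨_, hmem i⟩ j
  set Qf := Q.map (algebraMap R F) with hQf
  -- elements of `L` in terms of `P`
  have hPv : ∀ c : Fin N → R, P *ᵥ (emb R F N c) = ((∑ j, c j • b j : L) : Fin n → F) := by
    intro c
    ext i
    simp only [Matrix.mulVec, dotProduct, emb_apply, P, Matrix.of_apply]
    rw [Submodule.coe_sum, Finset.sum_apply]
    refine Finset.sum_congr rfl fun j _ => ?_
    rw [Submodule.coe_smul, Pi.smul_apply, Algebra.smul_def, mul_comm]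
  have hPL : ∀ x ∈ L, ∃ c : Fin N → R, P *ᵥ (emb R F N c) = x := by
    intro x hx
    refine ⟨fun j => b.repr ⟨x, hx⟩ j, ?_⟩
    rw [hPv, b.sum_repr]
  have hemb1 : ∀ i : Fin n, emb R F n (Pi.single i 1) = Pi.single i 1 := by
    intro i
    ext j
    rw [emb_apply]
    by_cases hj : j = i
    · subst hj; simp
    · simp [hj]
  have hPQ : P * Qf = 1 := by
    ext a i
    have h1 : (P * Qf) a i = (P *ᵥ (emb R F N (fun j => Q j i))) a := rfl
    rw [h1, hPv]
    have h2 : (∑ j, Q j i • b j : L) = ⟨_, hmem i⟩ := b.sum_repr _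
    rw [h2]
    show emb R F n (Pi.single i 1) a = _
    rw [hemb1, Matrix.one_apply, Pi.single_apply]
  have hPinj : ∀ v : Fin N → F, P *ᵥ v = 0 → v = 0 := by
    intro v hv
    obtain ⟨d, hd⟩ := IsLocalization.exist_integer_multiples_of_finite (nonZeroDivisors R) v
    choose c hc using hd
    have h1 : emb R F N c = (d : R) • v := by
      ext i
      rw [emb_apply, hc i]
      rfl
    have h2 : P *ᵥ (emb R F N c) = 0 := by
      rw [h1, Matrix.mulVec_smul, hv, smul_zero]
    rw [hPv] at h2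
    have h3 : (∑ j, c j • b j : L) = 0 := Subtype.ext h2
    have h4 : ∀ j, c j = 0 := by
      have := Fintype.linearIndependent_iff.1 b.linearIndependent c h3
      exact this
    ext i
    have h5 := hc i
    rw [h4 i, map_zero, Algebra.smul_def] at h5
    have h6 : algebraMap R F (d : R) ≠ 0 :=
      (map_ne_zero_iff _ (IsFractionRing.injective R F)).2 (nonZeroDivisors.ne_zero d.2)
    exact (mul_eq_zero.1 h5.symm).resolve_left h6
  have hQP : Qf * P = 1 := by
    have h1 : P * (Qf * P - 1) = 0 := by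
      rw [Matrix.mul_sub, ← Matrix.mul_assoc, hPQ, Matrix.one_mul, Matrix.mul_one, sub_self]
    have h2 : Qf * P - 1 = 0 := by
      ext i j
      have h3 : P *ᵥ (fun i => (Qf * P - 1 : Matrix (Fin N) (Fin N) F) i j) = 0 := by
        ext a
        have := congrFun (congrFun h1 a) j
        exact this
      exact congrFun (hPinj _ h3) i
    exact sub_eq_zero.1 h2
  -- the Gram matrix
  have hBex : ∀ i j : Fin N, ∃ r : R, algebraMap R F r = (Pᵀ * Gf * P) i j := by
    intro i j
    obtain ⟨r, hr⟩ := hL.2.2 _ (b i).2 _ (b j).2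
    refine ⟨r, ?_⟩
    rw [hr]
    have : (Pᵀ * Gf * P) i j = (fun a => P a i) ⬝ᵥ (Gf *ᵥ (fun a => P a j)) := by
      rw [Matrix.mul_assoc]
      rfl
    rw [this]
    rfl
  choose B₀ hB₀ using hBex
  let B : Matrix (Fin N) (Fin N) R := Matrix.of B₀
  have hB : B.map (algebraMap R F) = Pᵀ * Gf * P := by
    ext i j
    exact hB₀ i j
  -- the matrix `M`
  have hMex : ∀ j : Fin N, ∃ c : Fin N → R,
      P *ᵥ (emb R F N c) = (Cf * (Gf⁻¹ * Qfᵀ)) *ᵥ (Pi.single j 1) := by
    intro j
    apply hPL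
    rw [← Matrix.mulVec_mulVec]
    apply hCL
    intro y hy
    obtain ⟨c, hc⟩ := hPL y hy
    refine ⟨c j, ?_⟩
    rw [← hc, beta_symm Gf hGf', Matrix.mulVec_mulVec, ← Matrix.mul_assoc,
      Matrix.mul_nonsing_inv _ hdetf, Matrix.one_mul, Matrix.dotProduct_mulVec,
      Matrix.vecMul_transpose, Matrix.mulVec_mulVec, hQP, Matrix.one_mulVec, dotProduct_single_one]
    rfl
  choose M₀ hM₀ using hMex
  let M : Matrix (Fin N) (Fin N) R := Matrix.of fun i j => M₀ j i
  have hM : M.map (algebraMap R F) = Qf * (Cf * Gf⁻¹) * Qfᵀ := by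
    have h1 : P * M.map (algebraMap R F) = Cf * (Gf⁻¹ * Qfᵀ) := by
      ext a j
      have h2 := congrFun (hM₀ j) a
      rw [Matrix.mulVec_single_one] at h2
      exact h2
    calc M.map (algebraMap R F) = Qf * (P * M.map (algebraMap R F)) := by
          rw [← Matrix.mul_assoc, hQP, Matrix.one_mul]
      _ = Qf * (Cf * Gf⁻¹) * Qfᵀ := by rw [h1]; simp only [Matrix.mul_assoc]
  have hCG : Gf⁻¹ * Cfᵀ = Cf * Gf⁻¹ := by
    have h1 : Cfᵀ * Gf = Gf * Cf := by
      rw [Matrix.transpose_mul, hGf'] at hGCf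
      exact hGCf
    calc Gf⁻¹ * Cfᵀ = Gf⁻¹ * (Cfᵀ * Gf) * Gf⁻¹ := by
          rw [Matrix.mul_assoc, Matrix.mul_assoc, Matrix.mul_nonsing_inv _ hdetf, Matrix.mul_one]
      _ = Cf * Gf⁻¹ := by
          rw [h1, ← Matrix.mul_assoc, Matrix.nonsing_inv_mul _ hdetf, Matrix.one_mul]
  have hMB : M.map (algebraMap R F) * B.map (algebraMap R F) = Qf * Cf * P := by
    rw [hM, hB]
    calc Qf * (Cf * Gf⁻¹) * Qfᵀ * (Pᵀ * Gf * P)
        = Qf * Cf * Gf⁻¹ * (P * Qf)ᵀ * Gf * P := by
          rw [Matrix.transpose_mul]; simp only [Matrix.mul_assoc]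
      _ = Qf * Cf * (Gf⁻¹ * Gf) * P := by
          rw [hPQ, Matrix.transpose_one, Matrix.mul_one]; simp only [Matrix.mul_assoc]
      _ = Qf * Cf * P := by rw [Matrix.nonsing_inv_mul _ hdetf, Matrix.mul_one]
  have hMBpow : ∀ l : ℕ, (M.map (algebraMap R F) * B.map (algebraMap R F)) ^ l = Qf * Cf ^ l * P := by
    intro l
    rw [hMB]
    induction l with
    | zero => rw [pow_zero, pow_zero, Matrix.mul_one, hQP]
    | succ l ih =>
      rw [pow_succ, ih]
      calc Qf * Cf ^ l * P * (Qf * Cf * P) = Qf * Cf ^ l * (P * Qf) * Cf * P := by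
            simp only [Matrix.mul_assoc]
        _ = Qf * Cf ^ (l + 1) * P := by
            rw [hPQ, Matrix.mul_one, pow_succ]; simp only [Matrix.mul_assoc]
  refine ⟨N, B, M, Q, W * (Qᵀ * B), ?_, ?_, ?_, ?_, ?_, hM⟩
  · apply map_inj' (F := F)
    rw [Matrix.transpose_map, hB]
    simp only [Matrix.transpose_mul, Matrix.transpose_transpose, hGf', Matrix.mul_assoc]
  · apply map_inj' (F := F)
    rw [Matrix.transpose_map, hM]
    rw [Matrix.transpose_mul, Matrix.transpose_mul, Matrix.transpose_transpose,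
      Matrix.transpose_mul, Matrix.transpose_nonsing_inv, hGf', hCG]
    simp only [Matrix.mul_assoc]
  · apply map_inj' (F := F)
    rw [Matrix.map_mul, Matrix.map_mul, Matrix.transpose_map, hB]
    calc Qfᵀ * (Pᵀ * Gf * P) * Qf = (P * Qf)ᵀ * Gf * (P * Qf) := by
          rw [Matrix.transpose_mul]; simp only [Matrix.mul_assoc]
      _ = Gf := by rw [hPQ]; simp
  · apply map_inj' (F := F)
    rw [Matrix.map_mul, Matrix.map_mul, Matrix.map_mul, hMB]
    rw [Matrix.mul_assoc, hPQ, Matrix.mul_one]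
  · apply map_inj' (F := F)
    have h1 : ((M * B) ^ m).map (algebraMap R F) =
        (M.map (algebraMap R F) * B.map (algebraMap R F)) ^ m := by
      rw [← Matrix.map_mul, ← RingHom.mapMatrix_apply, map_pow, RingHom.mapMatrix_apply]
    have h2 : Cf ^ m = (W.map (algebraMap R F)) * Gf := by
      rw [hGf, ← Matrix.map_mul, hW, hCf, ← RingHom.mapMatrix_apply, ← map_pow,
        RingHom.mapMatrix_apply]
    rw [h1, hMBpow, h2, Matrix.map_mul, Matrix.map_mul, Matrix.map_mul, Matrix.transpose_map, hB]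
    calc Qf * (W.map (algebraMap R F) * Gf) * P
        = Qf * (W.map (algebraMap R F) * ((P * Qf)ᵀ * Gf * P)) := by
          rw [hPQ, Matrix.transpose_one, Matrix.one_mul]; simp only [Matrix.mul_assoc]
      _ = _ := by rw [Matrix.transpose_mul, hQf]; simp only [Matrix.mul_assoc]

end lat

end Pool.Agent.N37.HR
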