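import Mathlib

/-!
# Additive maps that are linear over squares
-/

set_option autoImplicit false
set_option linter.unusedSectionVars false

open Finset Polynomial

noncomputable section

namespace Pool.Agent.N37.HR

/-- `θ` is linear over squares -/
def SL {R : Type} [CommRing R] (θ : R →+ R) : Prop := ∀ a b, θ (a ^ 2 * b) = a ^ 2 * θ b

section extend

variable {R F : Type} [CommRing R] [IsDomain R] [Field F] [Algebra R F] [IsFractionRing R F]

theorem exists_frac (z : F) : ∃ a b : R, b ≠ 0 ∧ z = algebraMap R F a / algebraMap R F b := by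
  obtain ⟨a, b, hb, h⟩ := IsFractionRing.div_surjective (A := R) z
  exact ⟨a, b, nonZeroDivisors.ne_zero hb, h.symm⟩

theorem ext_key (θ₀ : R →+ R) (h : SL θ₀) (a b c d : R) (hb : b ≠ 0) (hd : d ≠ 0)
    (e : algebraMap R F a / algebraMap R F b = algebraMap R F c / algebraMap R F d) :
    algebraMap R F (θ₀ (a * b)) / algebraMap R F b ^ 2 =
      algebraMap R F (θ₀ (c * d)) / algebraMap R F d ^ 2 := by
  have hinj := IsFractionRing.injective R F
  have hb' : algebraMap R F b ≠ 0 := (map_ne_zero_iff _ hinj).2 hb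
  have hd' : algebraMap R F d ≠ 0 := (map_ne_zero_iff _ hinj).2 hd
  rw [div_eq_div_iff hb' hd', ← map_mul, ← map_mul] at e
  have e' : a * d = c * b := hinj e
  rw [div_eq_div_iff (pow_ne_zero 2 hb') (pow_ne_zero 2 hd'), ← map_pow, ← map_pow, ← map_mul,
    ← map_mul]
  congr 1
  rw [mul_comm, ← h, mul_comm (θ₀ _) (b ^ 2), ← h]
  congr 1
  calc d ^ 2 * (a * b) = (a * d) * (b * d) := by ring
    _ = (c * b) * (b * d) := by rw [e']
    _ = b ^ 2 * (c * d) := by ring

theorem exists_extend (θ₀ : R →+ R) (h : SL θ₀) :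
    ∃ θ : F →+ F, (∀ x, θ (algebraMap R F x) = algebraMap R F (θ₀ x)) ∧ SL θ := by
  have hinj := IsFractionRing.injective R F
  choose nu de hde hfr using fun z : F => exists_frac (R := R) z
  let f : F → F := fun z => algebraMap R F (θ₀ (nu z * de z)) / algebraMap R F (de z) ^ 2
  have hf : ∀ a b : R, b ≠ 0 → f (algebraMap R F a / algebraMap R F b) =
      algebraMap R F (θ₀ (a * b)) / algebraMap R F b ^ 2 := by
    intro a b hb
    exact ext_key θ₀ h _ _ _ _ (hde _) hb (hfr _).symm
  have hfx : ∀ x, f (algebraMap R F x) = algebraMap R F (θ₀ x) := by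
    intro x
    have := hf x 1 one_ne_zero
    rw [map_one, div_one, one_pow, div_one, mul_one] at this
    exact this
  refine ⟨⟨⟨f, ?_⟩, ?_⟩, hfx, ?_⟩
  · have := hfx 0
    rw [map_zero, map_zero, map_zero] at this
    exact this
  · intro x y
    show f (x + y) = f x + f y
    have hx' : algebraMap R F (de x) ≠ 0 := (map_ne_zero_iff _ hinj).2 (hde x)
    have hy' : algebraMap R F (de y) ≠ 0 := (map_ne_zero_iff _ hinj).2 (hde y)
    have h1 : x + y = algebraMap R F (nu x * de y + nu y * de x) / algebraMap R F (de x * de y) := by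
      conv_lhs => rw [hfr x, hfr y]
      rw [div_add_div _ _ hx' hy', map_add, map_mul, map_mul, map_mul]
      ring
    rw [h1, hf _ _ (mul_ne_zero (hde x) (hde y))]
    have h2 : (nu x * de y + nu y * de x) * (de x * de y) =
        de y ^ 2 * (nu x * de x) + de x ^ 2 * (nu y * de y) := by ring
    rw [h2, map_add, h, h]
    show _ = algebraMap R F (θ₀ (nu x * de x)) / algebraMap R F (de x) ^ 2 +
      algebraMap R F (θ₀ (nu y * de y)) / algebraMap R F (de y) ^ 2
    rw [div_add_div _ _ (pow_ne_zero 2 hx') (pow_ne_zero 2 hy')]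
    simp only [map_add, map_mul, map_pow]
    rw [mul_pow]
    ring
  · intro x y
    show f (x ^ 2 * y) = x ^ 2 * f y
    have hx' : algebraMap R F (de x) ≠ 0 := (map_ne_zero_iff _ hinj).2 (hde x)
    have hy' : algebraMap R F (de y) ≠ 0 := (map_ne_zero_iff _ hinj).2 (hde y)
    have h1 : x ^ 2 * y = algebraMap R F (nu x ^ 2 * nu y) / algebraMap R F (de x ^ 2 * de y) := by
      conv_lhs => rw [hfr x, hfr y]
      simp only [map_mul, map_pow]
      rw [div_pow, div_mul_div_comm]
    rw [h1, hf _ _ (mul_ne_zero (pow_ne_zero 2 (hde x)) (hde y))]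
    have h2 : nu x ^ 2 * nu y * (de x ^ 2 * de y) = (nu x * de x) ^ 2 * (nu y * de y) := by ring
    rw [h2, h]
    show _ = x ^ 2 * (algebraMap R F (θ₀ (nu y * de y)) / algebraMap R F (de y) ^ 2)
    conv_rhs => rw [hfr x]
    simp only [map_mul, map_pow]
    field_simp

end extend

section coeffwise

variable {R : Type} [CommRing R]

/-- apply an additive map to all coefficients -/
def cw (θ : R →+ R) : R[X] →+ R[X] where
  toFun f := f.sum fun i a => monomial i (θ a)
  map_zero' := by simp
  map_add' f g := by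
    rw [sum_add_index]
    · intro i
      simp
    · intro i a b
      simp

theorem cw_monomial (θ : R →+ R) (i : ℕ) (a : R) : cw θ (monomial i a) = monomial i (θ a) := by
  show (monomial i a : R[X]).sum (fun i a => monomial i (θ a)) = _
  rw [sum_monomial_index]
  simp

theorem cw_C (θ : R →+ R) (a : R) : cw θ (C a) = C (θ a) := cw_monomial θ 0 a

theorem cw_SL [CharP R 2] (θ : R →+ R) (h : SL θ) : SL (cw θ) := by
  intro f g
  induction f using Polynomial.induction_on' with
  | add f₁ f₂ h₁ h₂ =>
    have h3 : (f₁ + f₂) ^ 2 = f₁ ^ 2 + f₂ ^ 2 := by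
      have := CharTwo.add_sq f₁ f₂
      exact this
    rw [h3, add_mul, map_add, h₁, h₂, add_mul]
  | monomial i a =>
    induction g using Polynomial.induction_on' with
    | add g₁ g₂ h₁ h₂ => rw [mul_add, map_add, h₁, h₂, map_add, mul_add]
    | monomial j b =>
      rw [monomial_pow, monomial_mul_monomial, cw_monomial, h, cw_monomial, monomial_mul_monomial]

end coeffwise

section theta0

variable {k : Type} [CommRing k] [CharP k 2]

/-- the map `d/dσ ∘ δ` on `k[σ]` -/
def th0 (δ : k →+ k) : k[X] →+ k[X] := (derivative : k[X] →ₗ[k] k[X]).toAddMonoidHom.comp (cw δ)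

theorem th0_apply (δ : k →+ k) (f : k[X]) : th0 δ f = derivative (cw δ f) := rfl

theorem th0_SL (δ : k →+ k) (h : SL δ) : SL (th0 δ) := by
  intro a b
  rw [th0_apply, th0_apply, cw_SL δ h, derivative_mul, derivative_pow]
  have h2 : (C ((2 : ℕ) : k) : k[X]) = 0 := by
    rw [CharP.cast_eq_zero, C_0]
  rw [h2]
  ring

theorem th0_monomial_even (δ : k →+ k) (j : ℕ) (a : k) : th0 δ (monomial (2 * j) a) = 0 := by
  rw [th0_apply, cw_monomial, derivative_monomial]
  have : ((2 * j : ℕ) : k) = 0 := by
    rw [Nat.cast_mul, CharP.cast_eq_zero, zero_mul]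
  rw [this, mul_zero, monomial_zero_right]

theorem th0_monomial_odd (δ : k →+ k) (j : ℕ) (a : k) :
    th0 δ (monomial (2 * j + 1) a) = monomial (2 * j) (δ a) := by
  rw [th0_apply, cw_monomial, derivative_monomial]
  have : ((2 * j + 1 : ℕ) : k) = 1 := by
    rw [Nat.cast_add, Nat.cast_mul, CharP.cast_eq_zero, zero_mul, zero_add, Nat.cast_one]
  rw [this, mul_one, Nat.add_sub_cancel]

end theta0

end Pool.Agent.N37.HR
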