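import Pool.Agent.N37.HR.JPair
import Pool.Agent.N37.HR.Lat
import Pool.Agent.N37.HR.Data
import Pool.Agent.N37.HR.Theta

/-!
# The two charts of the projective line
-/

set_option autoImplicit false
set_option linter.unusedSectionVars false

open Finset Polynomial Matrix

noncomputable section

namespace Pool.Agent.N37.HR

section psi

variable {k : Type} [Field k]

/-- `σ ↦ σ⁻¹` on polynomials -/
def psi0 (k : Type) [Field k] : k[X] →+* RatFunc k :=
  eval₂RingHom (algebraMap k (RatFunc k)) (RatFunc.X)⁻¹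

theorem psi0_C (a : k) : psi0 k (C a) = algebraMap k (RatFunc k) a := by
  simp [psi0]

theorem psi0_X : psi0 k X = (RatFunc.X)⁻¹ := by
  simp [psi0]

theorem X_ne : (RatFunc.X : RatFunc k) ≠ 0 := RatFunc.X_ne_zero

theorem am_eval₂ (f : k[X]) : eval₂ (algebraMap k (RatFunc k)) (RatFunc.X) f =
    algebraMap k[X] (RatFunc k) f := by
  have h : eval₂RingHom (algebraMap k (RatFunc k)) (RatFunc.X) = algebraMap k[X] (RatFunc k) := by
    apply Polynomial.ringHom_ext
    · intro a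
      rw [coe_eval₂RingHom, eval₂_C, RatFunc.algebraMap_C, RatFunc.algebraMap_eq_C]
    · rw [coe_eval₂RingHom, eval₂_X, RatFunc.algebraMap_X]
  rw [← h]
  rfl

theorem psi0_inj : Function.Injective (psi0 k) := by
  rw [injective_iff_map_eq_zero]
  intro f hf
  let _i : Invertible (RatFunc.X : RatFunc k)⁻¹ :=
    ⟨RatFunc.X, mul_inv_cancel₀ X_ne, inv_mul_cancel₀ X_ne⟩
  have h1 := (eval₂_reverse_eq_zero_iff (algebraMap k (RatFunc k)) ((RatFunc.X : RatFunc k)⁻¹) f).2 hf
  have h2 : ⅟((RatFunc.X : RatFunc k)⁻¹) = RatFunc.X := rfl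
  rw [h2, am_eval₂] at h1
  have h3 : f.reverse = 0 := by
    apply IsFractionRing.injective k[X] (RatFunc k)
    rw [h1, map_zero]
  exact reverse_eq_zero.1 h3

/-- `σ ↦ σ⁻¹` -/
def psi (k : Type) [Field k] : RatFunc k →+* RatFunc k := IsFractionRing.lift (psi0_inj (k := k))

theorem psi_am (f : k[X]) : psi k (algebraMap k[X] (RatFunc k) f) = psi0 k f :=
  IsFractionRing.lift_algebraMap _ _

variable [CharP k 2]

theorem theta_psi (δ : k →+ k) (θ : RatFunc k →+ RatFunc k)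
    (hθ : ∀ x, θ (algebraMap k[X] (RatFunc k) x) = algebraMap k[X] (RatFunc k) (th0 δ x))
    (hSL : SL θ) (z : RatFunc k) : θ (psi k z) = (RatFunc.X⁻¹) ^ 2 * psi k (θ z) := by
  have hpoly : ∀ f : k[X], θ (psi0 k f) = (RatFunc.X⁻¹) ^ 2 * psi0 k (th0 δ f) := by
    intro f
    induction f using Polynomial.induction_on' with
    | add f g hf hg => rw [map_add, map_add, hf, hg, map_add, map_add, mul_add]
    | monomial i a =>
      have hm : psi0 k (monomial i a) = algebraMap k (RatFunc k) a * (RatFunc.X⁻¹) ^ i := by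
        rw [← C_mul_X_pow_eq_monomial, map_mul, psi0_C, map_pow, psi0_X]
      have hc : ∀ b : k, algebraMap k (RatFunc k) b = algebraMap k[X] (RatFunc k) (C b) := by
        intro b
        rw [RatFunc.algebraMap_C]
        rfl
      rcases Nat.even_or_odd' i with ⟨j, rfl | rfl⟩
      · rw [th0_monomial_even, map_zero, mul_zero, hm, mul_comm 2 j, pow_mul, mul_comm, hSL, hc, hθ]
        have := th0_monomial_even δ 0 a
        rw [mul_zero] at this
        show _ * algebraMap k[X] (RatFunc k) (th0 δ (monomial 0 a)) = 0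
        rw [this, map_zero, mul_zero]
      · rw [th0_monomial_odd, hm]
        have h1 : algebraMap k (RatFunc k) a * (RatFunc.X⁻¹) ^ (2 * j + 1) =
            ((RatFunc.X⁻¹) ^ (j + 1)) ^ 2 * algebraMap k[X] (RatFunc k) (monomial 1 a) := by
          rw [← C_mul_X_pow_eq_monomial, map_mul, hc, pow_one, RatFunc.algebraMap_X]
          have hX := X_ne (k := k)
          have hX1 : (RatFunc.X : RatFunc k)⁻¹ * RatFunc.X = 1 := inv_mul_cancel₀ hX
          calc _ = algebraMap k[X] (RatFunc k) (C a) * (RatFunc.X⁻¹) ^ (2 * j + 1) *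
                ((RatFunc.X : RatFunc k)⁻¹ * RatFunc.X) := by rw [hX1, mul_one]
            _ = _ := by ring
        rw [h1, hSL, hθ]
        have h2 := th0_monomial_odd δ 0 a
        rw [mul_zero, zero_add] at h2
        rw [h2]
        have h3 : psi0 k (monomial (2 * j) (δ a)) =
            algebraMap k (RatFunc k) (δ a) * (RatFunc.X⁻¹) ^ (2 * j) := by
          rw [← C_mul_X_pow_eq_monomial, map_mul, psi0_C, map_pow, psi0_X]
        rw [h3, hc]
        show _ * algebraMap k[X] (RatFunc k) (C (δ a)) = _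
        ring
  obtain ⟨a, b, hb, rfl⟩ := exists_frac (R := k[X]) z
  have hb' : algebraMap k[X] (RatFunc k) b ≠ 0 :=
    (map_ne_zero_iff _ (IsFractionRing.injective k[X] (RatFunc k))).2 hb
  have hb'' : psi0 k b ≠ 0 := (map_ne_zero_iff _ psi0_inj).2 hb
  have h1 : ∀ (u v : RatFunc k), v ≠ 0 → u / v = (v⁻¹) ^ 2 * (u * v) := by
    intro u v hv
    field_simp
  rw [map_div₀, psi_am, psi_am, h1 _ _ hb'', hSL, h1 _ _ hb', hSL, ← map_mul (psi0 k),
    ← map_mul (algebraMap k[X] (RatFunc k)), hpoly, hθ]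
  rw [map_mul (psi k), map_pow (psi k), map_inv₀, psi_am, psi_am]
  ring

end psi

section real

/-- a realization of the pair `p, r` by symmetric matrices -/
structure Real (k : Type) [Field k] (p r : k[X][X]) (n : ℕ) (hn : 0 < n) (D : ℕ) where
  t : ℕ → k[X]
  G : Matrix (Fin n) (Fin n) k[X]
  C : Matrix (Fin n) (Fin n) k[X]
  N : ℕ
  B : Matrix (Fin N) (Fin N) k[X]
  M : Matrix (Fin N) (Fin N) k[X]
  Q : Matrix (Fin N) (Fin n) k[X]
  Z : Matrix (Fin n) (Fin N) k[X]
  m : ℕ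
  t0 : ∀ l, l + 1 < n → t l = 0
  t1 : t (n - 1) = 1
  trec : ∀ l, ∑ i ∈ range (n + 1), p.coeff (n - i) * t (l + i) = 0
  Gij : ∀ i j, G i j = mom r t D ((i : ℕ) + j)
  GCij : ∀ i j, (G * C) i j = mom r t D ((i : ℕ) + j + 1)
  Gsymm : Gᵀ = G
  GCsymm : (G * C)ᵀ = G * C
  Gdet : G.det ≠ 0
  Crec : ∑ i ∈ range (n + 1), p.coeff (n - i) • C ^ i = 0
  Ccyc : ∀ j (h : j < n), C ^ j *ᵥ Pi.single (⟨0, hn⟩ : Fin n) 1 = Pi.single ⟨j, h⟩ 1
  Bsymm : Bᵀ = B
  Msymm : Mᵀ = M
  QBQ : Qᵀ * B * Q = G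
  MBQ : M * B * Q = Q * C
  QZ : (M * B) ^ m = Q * Z
  Meq : M.map (algebraMap k[X] (RatFunc k)) = Q.map (algebraMap k[X] (RatFunc k)) *
        (C.map (algebraMap k[X] (RatFunc k)) * (G.map (algebraMap k[X] (RatFunc k)))⁻¹) *
        (Q.map (algebraMap k[X] (RatFunc k)))ᵀ

variable {k : Type} [Field k]

theorem exists_real (p r : k[X][X]) (hp0 : p.coeff 0 = 1) (n : ℕ) (hn : p.natDegree = n)
    (hn0 : 0 < n) (hcop : IsCoprime p r) (D : ℕ) (hD : r.natDegree ≤ D) :
    Nonempty (Real k p r n hn0 D) := by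
  obtain ⟨t, G, C, W, m, h1, h2, h3, h4, h5, h6, h7, h8, h9, h10, h11⟩ :=
    data p r hp0 n hn hn0 hcop D hD
  obtain ⟨N, B, M, Q, Z, g1, g2, g3, g4, g5, g6⟩ :=
    lat (F := RatFunc k) G C W h6 h7 h8 h9
  exact ⟨⟨t, G, C, N, B, M, Q, Z, m, h1, h2, h3, h4, h5, h6, h7, h8, h10, h11, g1, g2, g3, g4, g5,
    g6⟩⟩

variable [CharP k 2]

instance : CharP (RatFunc k) 2 := charP_of_injective_algebraMap (algebraMap k (RatFunc k)).injective 2

variable {p r : k[X][X]} {n : ℕ} {hn : 0 < n} {D : ℕ}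

theorem Real.Gunit (d : Real k p r n hn D) (g : k[X] →+* RatFunc k) (hg : Function.Injective g) :
    IsUnit (d.G.map g).det := by
  rw [← RingHom.mapMatrix_apply, ← RingHom.map_det]
  exact isUnit_iff_ne_zero.2 ((map_ne_zero_iff _ hg).2 d.Gdet)

theorem Real.Ksymm (d : Real k p r n hn D) (g : k[X] →+* RatFunc k) (hg : Function.Injective g) :
    (d.C.map g * (d.G.map g)⁻¹)ᵀ = d.C.map g * (d.G.map g)⁻¹ := by
  have hu := d.Gunit g hg
  have h1 : (d.G.map g)ᵀ = d.G.map g := by rw [← Matrix.transpose_map, d.Gsymm]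
  have h2 : (d.C.map g)ᵀ * d.G.map g = d.G.map g * d.C.map g := by
    have : ((d.G * d.C)ᵀ).map g = (d.G * d.C).map g := by rw [d.GCsymm]
    rw [Matrix.transpose_map, Matrix.map_mul, Matrix.transpose_mul, h1] at this
    exact this
  rw [Matrix.transpose_mul, Matrix.transpose_nonsing_inv, h1]
  calc (d.G.map g)⁻¹ * (d.C.map g)ᵀ
      = (d.G.map g)⁻¹ * ((d.C.map g)ᵀ * d.G.map g) * (d.G.map g)⁻¹ := by
        rw [Matrix.mul_assoc, Matrix.mul_assoc, Matrix.mul_nonsing_inv _ hu, Matrix.mul_one]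
    _ = d.C.map g * (d.G.map g)⁻¹ := by
        rw [h2, ← Matrix.mul_assoc, Matrix.nonsing_inv_mul _ hu, Matrix.one_mul]

/-- transport of a matrix identity through `psi` -/
theorem map_psi0 {a b : ℕ} (A : Matrix (Fin a) (Fin b) k[X]) :
    (A.map (algebraMap k[X] (RatFunc k))).map (psi k) = A.map (psi0 k) := by
  ext i j
  simp only [Matrix.map_apply]
  exact psi_am _

theorem Real.J_eq (d : Real k p r n hn D) (θ : RatFunc k →+ RatFunc k) (hθ : SL θ) :
    J θ (d.M.map (algebraMap k[X] (RatFunc k))) (d.B.map (algebraMap k[X] (RatFunc k))) =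
      J θ (d.C.map (algebraMap k[X] (RatFunc k)) * (d.G.map (algebraMap k[X] (RatFunc k)))⁻¹)
        (d.G.map (algebraMap k[X] (RatFunc k))) := by
  have hB : (d.B.map (algebraMap k[X] (RatFunc k)))ᵀ = d.B.map (algebraMap k[X] (RatFunc k)) := by
    rw [← Matrix.transpose_map, d.Bsymm]
  rw [d.Meq, J_adj θ hθ _ _ _ (d.Ksymm _ (IsFractionRing.injective k[X] (RatFunc k))) hB,
    ← Matrix.transpose_map, ← Matrix.map_mul, ← Matrix.map_mul, d.QBQ]

theorem Real.J_eq' (d : Real k p r n hn D) (θ : RatFunc k →+ RatFunc k) (hθ : SL θ) :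
    J θ (d.M.map (psi0 k)) (d.B.map (psi0 k)) =
      J θ (d.C.map (psi0 k) * (d.G.map (psi0 k))⁻¹) (d.G.map (psi0 k)) := by
  have hB : (d.B.map (psi0 k))ᵀ = d.B.map (psi0 k) := by
    rw [← Matrix.transpose_map, d.Bsymm]
  have hM : d.M.map (psi0 k) = d.Q.map (psi0 k) * (d.C.map (psi0 k) * (d.G.map (psi0 k))⁻¹) *
      (d.Q.map (psi0 k))ᵀ := by
    have h1 := congrArg (fun A : Matrix (Fin d.N) (Fin d.N) (RatFunc k) => A.map (psi k)) d.Meq
    simp only [Matrix.map_mul, map_psi0, Matrix.transpose_map] at h1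
    have h2 : ((d.G.map (algebraMap k[X] (RatFunc k)))⁻¹).map (psi k) = (d.G.map (psi0 k))⁻¹ := by
      symm
      apply Matrix.inv_eq_right_inv
      rw [← map_psi0, ← Matrix.map_mul,
        Matrix.mul_nonsing_inv _ (d.Gunit _ (IsFractionRing.injective k[X] (RatFunc k)))]
      exact Matrix.map_one _ (map_zero _) (map_one _)
    rw [h2] at h1
    exact h1
  rw [hM, J_adj θ hθ _ _ _ (d.Ksymm _ psi0_inj) hB,
    ← Matrix.transpose_map, ← Matrix.map_mul, ← Matrix.map_mul, d.QBQ]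

end real

end Pool.Agent.N37.HR
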