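import Pool.Agent.N37.HR.Chart

/-!
# Vanishing of the invariant of a unimodular pair in `k[X, Y]`
-/

set_option autoImplicit false
set_option linter.unusedSectionVars false

open Finset Polynomial Matrix

noncomputable section

namespace Pool.Agent.N37.HR

section uniq

theorem rec_unique {A : Type} [CommRing A] (n : ℕ) (c : ℕ → A) (hc : c 0 = 1)
    (s s' : ℕ → A) (h : ∀ l, l < n → s l = s' l)
    (h3 : ∀ l, ∑ i ∈ range (n + 1), c (n - i) * s (l + i) = 0)
    (h3' : ∀ l, ∑ i ∈ range (n + 1), c (n - i) * s' (l + i) = 0) : ∀ l, s l = s' l := by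
  intro l
  induction l using Nat.strong_induction_on with
  | _ l ih =>
    by_cases hl : l < n
    · exact h l hl
    · obtain ⟨l', rfl⟩ := Nat.exists_eq_add_of_le (Nat.le_of_not_lt hl)
      have e1 := h3 l'
      have e2 := h3' l'
      rw [Finset.sum_range_succ, Nat.sub_self, hc, one_mul] at e1 e2
      have e3 : ∑ i ∈ range n, c (n - i) * s (l' + i) = ∑ i ∈ range n, c (n - i) * s' (l' + i) := by
        refine Finset.sum_congr rfl fun i hi => ?_
        rw [ih (l' + i) (by have := Finset.mem_range.1 hi; omega)]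
      rw [e3] at e1
      rw [add_comm n l']
      have := e1.trans e2.symm
      exact add_left_cancel this

end uniq

variable {k : Type} [Field k]

/-- `X ↦ ζ`, `Y ↦ σ ζ` -/
def Ph1 (k : Type) [Field k] : MvPolynomial (Fin 2) k →+* k[X][X] :=
  MvPolynomial.eval₂Hom ((C : k[X] →+* k[X][X]).comp (C : k →+* k[X])) ![X, C X * X]

/-- `X ↦ σ ζ`, `Y ↦ ζ` -/
def Ph2 (k : Type) [Field k] : MvPolynomial (Fin 2) k →+* k[X][X] :=
  MvPolynomial.eval₂Hom ((C : k[X] →+* k[X][X]).comp (C : k →+* k[X])) ![C X * X, X]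

theorem Ph_rel (P : MvPolynomial (Fin 2) k) (i : ℕ) :
    (RatFunc.X : RatFunc k) ^ i * psi0 k ((Ph2 k P).coeff i) =
      algebraMap k[X] (RatFunc k) ((Ph1 k P).coeff i) := by
  have h : ((compRingHom (C (RatFunc.X : RatFunc k) * X)).comp (mapRingHom (psi0 k))).comp (Ph2 k) =
      (mapRingHom (algebraMap k[X] (RatFunc k))).comp (Ph1 k) := by
    apply MvPolynomial.ringHom_ext
    · intro a
      simp only [RingHom.comp_apply, Ph1, Ph2, MvPolynomial.eval₂Hom_C, coe_mapRingHom, map_C,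
        psi0_C, coe_compRingHom_apply, C_comp]
      rw [RatFunc.algebraMap_C, RatFunc.algebraMap_eq_C]
    · intro j
      fin_cases j
      · simp only [RingHom.comp_apply, Ph1, Ph2, MvPolynomial.eval₂Hom_X', coe_mapRingHom,
          coe_compRingHom_apply]
        simp only [Fin.zero_eta, Matrix.cons_val_zero, Polynomial.map_mul, map_C, map_X, psi0_X,
          mul_comp, C_comp, X_comp]
        rw [← mul_assoc, ← C_mul, inv_mul_cancel₀ X_ne, C_1, one_mul]
      · simp only [RingHom.comp_apply, Ph1, Ph2, MvPolynomial.eval₂Hom_X', coe_mapRingHom,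
          coe_compRingHom_apply]
        simp only [Fin.mk_one, Matrix.cons_val_one, Matrix.cons_val_zero, Polynomial.map_mul, map_C,
          map_X, X_comp, RatFunc.algebraMap_X]
  have h1 := congrArg (fun f : (RatFunc k)[X] => f.coeff i) (RingHom.congr_fun h P)
  simp only [RingHom.comp_apply, coe_mapRingHom, coe_compRingHom_apply, comp_C_mul_X_coeff,
    coeff_map] at h1
  rw [← h1, mul_comm]

theorem coeff_zero_iff (P : MvPolynomial (Fin 2) k) (i : ℕ) :
    (Ph2 k P).coeff i = 0 ↔ (Ph1 k P).coeff i = 0 := by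
  have h := Ph_rel P i
  have hX : (RatFunc.X : RatFunc k) ^ i ≠ 0 := pow_ne_zero _ X_ne
  constructor
  · intro h1
    rw [h1, map_zero, mul_zero] at h
    exact (map_eq_zero_iff _ (IsFractionRing.injective k[X] (RatFunc k))).1 h.symm
  · intro h1
    rw [h1, map_zero] at h
    exact (map_eq_zero_iff _ psi0_inj).1 ((mul_eq_zero.1 h).resolve_left hX)

theorem natDegree_eq (P : MvPolynomial (Fin 2) k) : (Ph2 k P).natDegree = (Ph1 k P).natDegree := by
  apply le_antisymm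
  · rw [natDegree_le_iff_coeff_eq_zero]
    intro N hN
    rw [coeff_zero_iff]
    exact coeff_eq_zero_of_natDegree_lt hN
  · rw [natDegree_le_iff_coeff_eq_zero]
    intro N hN
    rw [← coeff_zero_iff]
    exact coeff_eq_zero_of_natDegree_lt hN

theorem Ph1_coeff_zero (P : MvPolynomial (Fin 2) k) :
    (Ph1 k P).coeff 0 = C (MvPolynomial.constantCoeff P) := by
  have h : (constantCoeff : k[X][X] →+* k[X]).comp (Ph1 k) =
      (C : k →+* k[X]).comp MvPolynomial.constantCoeff := by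
    apply MvPolynomial.ringHom_ext
    · intro a
      simp [Ph1]
    · intro j
      fin_cases j <;> simp [Ph1]
  exact RingHom.congr_fun h P

theorem Ph2_coeff_zero (P : MvPolynomial (Fin 2) k) :
    (Ph2 k P).coeff 0 = C (MvPolynomial.constantCoeff P) := by
  have h : (constantCoeff : k[X][X] →+* k[X]).comp (Ph2 k) =
      (C : k →+* k[X]).comp MvPolynomial.constantCoeff := by
    apply MvPolynomial.ringHom_ext
    · intro a
      simp [Ph2]
    · intro j
      fin_cases j <;> simp [Ph2]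
  exact RingHom.congr_fun h P

theorem psi0_reflect (f : k[X]) (d : ℕ) (hd : f.natDegree ≤ d) :
    (RatFunc.X : RatFunc k) ^ d * psi0 k f = algebraMap k[X] (RatFunc k) (reflect d f) := by
  let _i : Invertible (RatFunc.X : RatFunc k)⁻¹ :=
    ⟨RatFunc.X, mul_inv_cancel₀ X_ne, inv_mul_cancel₀ X_ne⟩
  have h1 := eval₂_reflect_mul_pow (algebraMap k (RatFunc k)) ((RatFunc.X : RatFunc k)⁻¹) d f hd
  have h2 : ⅟((RatFunc.X : RatFunc k)⁻¹) = RatFunc.X := rfl
  rw [h2, am_eval₂] at h1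
  have h3 : psi0 k f = eval₂ (algebraMap k (RatFunc k)) ((RatFunc.X : RatFunc k)⁻¹) f := rfl
  rw [h3, ← h1, mul_comm, mul_assoc, ← mul_pow, inv_mul_cancel₀ X_ne, one_pow, mul_one]

theorem two_charts (j₁ j₂ : k[X])
    (h : psi0 k j₂ = RatFunc.X * algebraMap k[X] (RatFunc k) j₁) : j₁ = 0 := by
  have h1 := psi0_reflect j₂ j₂.natDegree le_rfl
  rw [h, ← RatFunc.algebraMap_X, ← map_pow, ← map_mul, ← map_mul] at h1
  have h2 : X ^ j₂.natDegree * (X * j₁) = reflect j₂.natDegree j₂ :=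
    IsFractionRing.injective k[X] (RatFunc k) h1
  by_contra hj
  have h3 : (reflect j₂.natDegree j₂).natDegree ≤ j₂.natDegree := by
    refine le_trans natDegree_reflect_le ?_
    simp
  rw [← h2, ← mul_assoc, ← pow_succ, natDegree_X_pow_mul _ hj] at h3
  omega

variable [CharP k 2]

theorem J_map {N : ℕ} (δ : k →+ k) (θ : RatFunc k →+ RatFunc k)
    (hθ : ∀ x, θ (algebraMap k[X] (RatFunc k) x) = algebraMap k[X] (RatFunc k) (th0 δ x))
    (M B : Matrix (Fin N) (Fin N) k[X]) :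
    J θ (M.map (algebraMap k[X] (RatFunc k))) (B.map (algebraMap k[X] (RatFunc k))) =
      algebraMap k[X] (RatFunc k) (J (th0 δ) M B) := by
  unfold J
  rw [map_sum]
  refine Finset.sum_congr rfl fun i _ => ?_
  rw [Matrix.map_apply, Matrix.map_apply, hθ, map_mul]

theorem J_map' {N : ℕ} (δ : k →+ k) (θ : RatFunc k →+ RatFunc k)
    (hθ : ∀ x, θ (algebraMap k[X] (RatFunc k) x) = algebraMap k[X] (RatFunc k) (th0 δ x))
    (hSL : SL θ) (M B : Matrix (Fin N) (Fin N) k[X]) :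
    J θ (M.map (psi0 k)) (B.map (psi0 k)) = (RatFunc.X⁻¹) ^ 2 * psi0 k (J (th0 δ) M B) := by
  unfold J
  rw [map_sum, Finset.mul_sum]
  refine Finset.sum_congr rfl fun i _ => ?_
  rw [Matrix.map_apply, Matrix.map_apply, ← psi_am (B i i), theta_psi δ θ hθ hSL, hθ, psi_am,
    map_mul]
  ring

theorem chart (δ : k →+ k) (hδ : SL δ) (P R : MvPolynomial (Fin 2) k) (hcop : IsCoprime P R)
    (hP0 : MvPolynomial.constantCoeff P = 1) (n N₀ : ℕ) (hn : (Ph1 k P).natDegree = n)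
    (hn0 : 0 < n) (hD : (Ph1 k R).natDegree ≤ 2 * N₀ + (n - 1)) :
    ∃ d : Real k (Ph1 k P) (Ph1 k R) n hn0 (2 * N₀ + (n - 1)), J (th0 δ) d.M d.B = 0 := by
  obtain ⟨d₁⟩ := exists_real (Ph1 k P) (Ph1 k R) (by rw [Ph1_coeff_zero, hP0, C_1]) n hn hn0
    (hcop.map (Ph1 k)) (2 * N₀ + (n - 1)) hD
  obtain ⟨d₂⟩ := exists_real (Ph2 k P) (Ph2 k R) (by rw [Ph2_coeff_zero, hP0, C_1]) n
    (by rw [natDegree_eq, hn]) hn0 (hcop.map (Ph2 k)) (2 * N₀ + (n - 1))
    (by rw [natDegree_eq]; exact hD)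
  obtain ⟨θ, hθ, hSL⟩ := exists_extend (F := RatFunc k) (th0 δ) (th0_SL δ hδ)
  refine ⟨d₁, ?_⟩
  set ι := algebraMap k[X] (RatFunc k) with hι
  have hX : (RatFunc.X : RatFunc k) ≠ 0 := X_ne
  -- comparison of the sequences
  have ht : ∀ l, (RatFunc.X : RatFunc k) ^ l * psi0 k (d₂.t l) = RatFunc.X ^ (n - 1) * ι (d₁.t l) := by
    apply rec_unique n (fun i => ι ((Ph1 k P).coeff i))
    · show ι ((Ph1 k P).coeff 0) = 1
      rw [Ph1_coeff_zero, hP0, C_1, map_one]
    · intro l hl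
      by_cases h : l + 1 < n
      · rw [d₁.t0 l h, d₂.t0 l h, map_zero, map_zero, mul_zero, mul_zero]
      · have : l = n - 1 := by omega
        subst this
        rw [d₁.t1, d₂.t1, map_one, map_one]
    · intro l
      have h1 : ∑ i ∈ range (n + 1), ι ((Ph1 k P).coeff (n - i)) *
          ((RatFunc.X : RatFunc k) ^ (l + i) * psi0 k (d₂.t (l + i))) =
          RatFunc.X ^ (n + l) * psi0 k (∑ i ∈ range (n + 1), (Ph2 k P).coeff (n - i) * d₂.t (l + i)) := by
        rw [map_sum, Finset.mul_sum]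
        refine Finset.sum_congr rfl fun i hi => ?_
        have hi' : i ≤ n := by
          have := Finset.mem_range.1 hi
          omega
        rw [hι, ← Ph_rel, map_mul]
        have h2 : n + l = (n - i) + (l + i) := by omega
        rw [h2, pow_add _ (n - i) (l + i)]
        ring
      rw [h1, d₂.trec, map_zero, mul_zero]
    · intro l
      have h1 : ∑ i ∈ range (n + 1), ι ((Ph1 k P).coeff (n - i)) *
          ((RatFunc.X : RatFunc k) ^ (n - 1) * ι (d₁.t (l + i))) =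
          RatFunc.X ^ (n - 1) * ι (∑ i ∈ range (n + 1), (Ph1 k P).coeff (n - i) * d₁.t (l + i)) := by
        rw [map_sum, Finset.mul_sum]
        refine Finset.sum_congr rfl fun i hi => ?_
        rw [map_mul]
        ring
      rw [h1, d₁.trec, map_zero, mul_zero]
  -- comparison of the moments
  have hmom : ∀ j, (RatFunc.X : RatFunc k) ^ (2 * N₀ + j) *
      psi0 k (mom (Ph2 k R) d₂.t (2 * N₀ + (n - 1)) j) =
        ι (mom (Ph1 k R) d₁.t (2 * N₀ + (n - 1)) j) := by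
    intro j
    apply mul_left_cancel₀ (pow_ne_zero (n - 1) hX)
    rw [← mul_assoc, ← pow_add]
    unfold mom
    rw [map_sum, map_sum, Finset.mul_sum, Finset.mul_sum]
    refine Finset.sum_congr rfl fun i hi => ?_
    have hi' : i ≤ 2 * N₀ + (n - 1) := by
      have := Finset.mem_range.1 hi
      omega
    rw [map_mul, map_mul]
    have h2 : n - 1 + (2 * N₀ + j) = i + (2 * N₀ + (n - 1) - i + j) := by omega
    rw [h2, pow_add _ i]
    have h3 := ht (2 * N₀ + (n - 1) - i + j)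
    calc _ = (RatFunc.X ^ i * psi0 k ((Ph2 k R).coeff i)) *
          ((RatFunc.X : RatFunc k) ^ (2 * N₀ + (n - 1) - i + j) *
            psi0 k (d₂.t (2 * N₀ + (n - 1) - i + j))) := by ring
      _ = _ := by
        rw [h3, Ph_rel]
        ring
  -- matrices
  set G₁ := d₁.G.map ι with hG₁
  set C₁ := d₁.C.map ι with hC₁
  set G₂ := d₂.G.map (psi0 k) with hG₂
  set C₂ := d₂.C.map (psi0 k) with hC₂
  let q : Fin n → RatFunc k := fun i => RatFunc.X ^ (N₀ + (i : ℕ))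
  have hq : ∀ i, q i ≠ 0 := fun i => pow_ne_zero _ hX
  let Q : Matrix (Fin n) (Fin n) (RatFunc k) := Matrix.diagonal q
  let U : Matrix (Fin n) (Fin n) (RatFunc k) := Matrix.diagonal fun i => (q i)⁻¹
  have hUQ : U * Q = 1 := by
    show Matrix.diagonal _ * Matrix.diagonal _ = 1
    rw [Matrix.diagonal_mul_diagonal]
    have : (fun i => (q i)⁻¹ * q i) = fun _ => (1 : RatFunc k) := by
      ext i
      rw [inv_mul_cancel₀ (hq i)]
    rw [this, Matrix.diagonal_one]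
  have hQU : Q * U = 1 := mul_eq_one_comm.1 hUQ
  have hQt : Qᵀ = Q := Matrix.diagonal_transpose _
  have hQG : Q * G₂ * Q = G₁ := by
    ext i j
    rw [Matrix.mul_diagonal, Matrix.diagonal_mul, hG₂, hG₁, Matrix.map_apply, Matrix.map_apply,
      d₁.Gij, d₂.Gij, ← hmom]
    show RatFunc.X ^ (N₀ + (i : ℕ)) * _ * RatFunc.X ^ (N₀ + (j : ℕ)) = _
    ring
  have hQGC : Q * (G₂ * C₂) * Q = (RatFunc.X⁻¹ : RatFunc k) • (G₁ * C₁) := by
    ext i j
    rw [hG₂, hC₂, hG₁, hC₁, ← Matrix.map_mul, ← Matrix.map_mul, Matrix.mul_diagonal,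
      Matrix.diagonal_mul, Matrix.smul_apply, Matrix.map_apply, Matrix.map_apply,
      d₁.GCij, d₂.GCij, ← hmom, smul_eq_mul]
    show RatFunc.X ^ (N₀ + (i : ℕ)) * _ * RatFunc.X ^ (N₀ + (j : ℕ)) = _
    have h4 : (RatFunc.X : RatFunc k) ^ (2 * N₀ + ((i : ℕ) + j + 1)) =
        RatFunc.X * (RatFunc.X ^ (N₀ + (i : ℕ)) * RatFunc.X ^ (N₀ + (j : ℕ))) := by ring
    rw [h4]
    field_simp
  have hu₁ : IsUnit G₁.det := d₁.Gunit _ (IsFractionRing.injective k[X] (RatFunc k))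
  have hu₂ : IsUnit G₂.det := d₂.Gunit _ psi0_inj
  have hinv : G₂⁻¹ = Q * G₁⁻¹ * Q := by
    apply Matrix.inv_eq_right_inv
    calc G₂ * (Q * G₁⁻¹ * Q) = (U * Q) * G₂ * (Q * G₁⁻¹ * Q) := by rw [hUQ, Matrix.one_mul]
      _ = U * (Q * G₂ * Q) * G₁⁻¹ * Q := by simp only [Matrix.mul_assoc]
      _ = U * (G₁ * G₁⁻¹) * Q := by rw [hQG]; simp only [Matrix.mul_assoc]
      _ = 1 := by rw [Matrix.mul_nonsing_inv _ hu₁, Matrix.mul_one, hUQ]
  have hK : C₂ * G₂⁻¹ = (RatFunc.X⁻¹ : RatFunc k) • (Q * (C₁ * G₁⁻¹) * Qᵀ) := by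
    calc C₂ * G₂⁻¹ = (G₂⁻¹ * G₂) * C₂ * G₂⁻¹ := by
          rw [Matrix.nonsing_inv_mul _ hu₂, Matrix.one_mul]
      _ = G₂⁻¹ * (G₂ * C₂) * G₂⁻¹ := by simp only [Matrix.mul_assoc]
      _ = Q * G₁⁻¹ * (Q * (G₂ * C₂) * Q) * G₁⁻¹ * Q := by
          rw [hinv]; simp only [Matrix.mul_assoc]
      _ = (RatFunc.X⁻¹ : RatFunc k) • (Q * ((G₁⁻¹ * G₁) * C₁ * G₁⁻¹) * Q) := by
          rw [hQGC, Matrix.mul_smul, Matrix.smul_mul, Matrix.smul_mul]
          simp only [Matrix.mul_assoc]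
      _ = _ := by rw [Matrix.nonsing_inv_mul _ hu₁, Matrix.one_mul, hQt]
  have hG₂t : G₂ᵀ = G₂ := by rw [hG₂, ← Matrix.transpose_map, d₂.Gsymm]
  have hJ : J θ (C₂ * G₂⁻¹) G₂ = (RatFunc.X⁻¹ : RatFunc k) * J θ (C₁ * G₁⁻¹) G₁ := by
    rw [hK, J_smul_left, J_adj θ hSL _ _ _
      (d₁.Ksymm _ (IsFractionRing.injective k[X] (RatFunc k))) hG₂t, hQt, hQG]
  have e₁ := d₁.J_eq θ hSL
  have e₂ := d₂.J_eq' θ hSL
  rw [J_map δ θ hθ] at e₁
  rw [J_map' δ θ hθ hSL] at e₂
  rw [← hι, ← hG₁, ← hC₁] at e₁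
  rw [← hG₂, ← hC₂, hJ, ← e₁] at e₂
  apply two_charts _ (J (th0 δ) d₂.M d₂.B)
  have h5 : (RatFunc.X : RatFunc k) ^ 2 * ((RatFunc.X⁻¹) ^ 2 * psi0 k (J (th0 δ) d₂.M d₂.B)) =
      RatFunc.X ^ 2 * (RatFunc.X⁻¹ * ι (J (th0 δ) d₁.M d₁.B)) := by rw [e₂]
  have h6 : (RatFunc.X : RatFunc k) ^ 2 * ((RatFunc.X⁻¹) ^ 2 * psi0 k (J (th0 δ) d₂.M d₂.B)) =
      psi0 k (J (th0 δ) d₂.M d₂.B) := by
    field_simp
  rw [h6] at h5
  rw [h5, ← hι]
  field_simp

end Pool.Agent.N37.HR
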