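import Pool.Agent.N37.HR.RingA

/-!
# The Hermite ring conjecture fails
-/

set_option autoImplicit false
set_option linter.unusedSectionVars false

open Matrix Polynomial

noncomputable section

namespace Pool.Agent.N37.HR

theorem complete {R : Type} [CommRing R] (U V : Matrix (Fin 3) (Fin 3) R) (v u e : Fin 3 → R)
    (huv : u ⬝ᵥ v = 1) (hee : e ⬝ᵥ e = 1) (hUV : U * V = 1 - vecMulVec v u)
    (hVU : V * U = 1 - vecMulVec e e) :
    ∃ σ σ' : Matrix (Fin 3) (Fin 3) R, σ * σ' = 1 ∧ σ *ᵥ e = v := by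
  obtain ⟨E, hE⟩ : ∃ E, E = 1 - vecMulVec v u := ⟨_, rfl⟩
  obtain ⟨D, hD⟩ : ∃ D, D = 1 - vecMulVec e e := ⟨_, rfl⟩
  rw [← hE] at hUV
  rw [← hD] at hVU
  have hEE : E * E = E := by
    have h : vecMulVec v u * vecMulVec v u = vecMulVec v u := by
      rw [vecMulVec_mul_vecMulVec, huv, one_smul]
    rw [hE]
    simp only [Matrix.sub_mul, Matrix.mul_sub, Matrix.one_mul, Matrix.mul_one, h]
    simp
  have hDe : D *ᵥ e = 0 := by
    rw [hD, Matrix.sub_mulVec, Matrix.one_mulVec, vecMulVec_mulVec, hee]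
    simp
  have heD : e ᵥ* D = 0 := by
    rw [hD, Matrix.vecMul_sub, Matrix.vecMul_one, vecMul_vecMulVec, hee, one_smul, sub_self]
  have h1 : (E * U * D) * (D * V * E) = E := by
    calc (E * U * D) * (D * V * E) = E * (U * (V * U) * (V * U)) * V * E := by
          rw [hVU]; simp only [Matrix.mul_assoc]
      _ = E * (U * V) * (U * V) * (U * V) * E := by simp only [Matrix.mul_assoc]
      _ = E := by rw [hUV, hEE, hEE, hEE, hEE]
  refine ⟨E * U * D + vecMulVec v e, D * V * E + vecMulVec e u, ?_, ?_⟩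
  · rw [Matrix.add_mul, Matrix.mul_add, Matrix.mul_add, h1, vecMulVec_mul_vecMulVec, hee, one_smul]
    have h2 : E * U * D * vecMulVec e u = 0 := by
      rw [Matrix.mul_vecMulVec, ← Matrix.mulVec_mulVec, hDe, Matrix.mulVec_zero,
        Matrix.zero_vecMulVec]
    have h3 : vecMulVec v e * (D * V * E) = 0 := by
      rw [Matrix.vecMulVec_mul, Matrix.mul_assoc, ← Matrix.vecMul_vecMul, heD, Matrix.zero_vecMul,
        Matrix.vecMulVec_zero]
    rw [h2, h3, hE]
    simp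
  · rw [Matrix.add_mulVec, ← Matrix.mulVec_mulVec, hDe, Matrix.mulVec_zero, zero_add,
      vecMulVec_mulVec, hee]
    simp

theorem invol (a b : Fin 3 → R₀) (h : b ⬝ᵥ a = 0) :
    (1 + vecMulVec a b) * (1 + vecMulVec a b) = 1 := by
  rw [Matrix.add_mul, Matrix.mul_add, Matrix.mul_add, vecMulVec_mul_vecMulVec, h, zero_smul,
    Matrix.one_mul, Matrix.mul_one, Matrix.one_mul, Matrix.vecMulVec_zero, add_zero, add_assoc,
    ← two_smul R₀ (vecMulVec a b),
    two_R₀, zero_smul, add_zero]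

/-- `1 + l` -/
def mu : kk := 1 + ll

theorem mu_ne : mu ≠ 0 := one_add_ll_ne

def a1 : Fin 3 → R₀ := ![yy, cc ww * xx, yy]
def b1 : Fin 3 → R₀ := ![1, 0, 1]
def a2 : Fin 3 → R₀ := ![0, 0, 1]
def b2 : Fin 3 → R₀ := ![cc ll * yy, cc ll * xx, 0]
def a3 : Fin 3 → R₀ := ![yy, cc ww * xx, cc mu * yy]
def b3 : Fin 3 → R₀ := ![1, 0, cc mu⁻¹]

theorem cc_mu : (cc mu : R₀) = 1 + cc ll := by
  simp [cc, mu]

theorem cc_mu_inv : (cc mu⁻¹ : R₀) * cc mu = 1 := by
  rw [show (cc mu⁻¹ : R₀) * cc mu = cc (mu⁻¹ * mu) from (map_mul _ _ _).symm,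
    inv_mul_cancel₀ mu_ne]
  simp [cc]

theorem h1 : b1 ⬝ᵥ a1 = 0 := by
  simp only [dotProduct, Fin.sum_univ_three, a1, b1, Matrix.cons_val_zero, Matrix.cons_val_one,
    Matrix.cons_val_two, Matrix.head_cons, Matrix.tail_cons]
  linear_combination yy * two_R₀

theorem h2 : b2 ⬝ᵥ a2 = 0 := by
  simp only [dotProduct, Fin.sum_univ_three, a2, b2, Matrix.cons_val_zero, Matrix.cons_val_one,
    Matrix.cons_val_two, Matrix.head_cons, Matrix.tail_cons]
  ring

theorem h3 : b3 ⬝ᵥ a3 = 0 := by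
  simp only [dotProduct, Fin.sum_univ_three, a3, b3, Matrix.cons_val_zero, Matrix.cons_val_one,
    Matrix.cons_val_two, Matrix.head_cons, Matrix.tail_cons]
  linear_combination yy * two_R₀ + yy * cc_mu_inv

/-- the completing matrix over `k[X, Y]` -/
def EE : Matrix (Fin 3) (Fin 3) R₀ :=
  (1 + vecMulVec a1 b1) * ((1 + vecMulVec a2 b2) * (1 + vecMulVec a3 b3))

/-- its inverse -/
def EE' : Matrix (Fin 3) (Fin 3) R₀ :=
  (1 + vecMulVec a3 b3) * ((1 + vecMulVec a2 b2) * (1 + vecMulVec a1 b1))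

theorem EE'_EE : EE' * EE = 1 := by
  have e1 := invol a1 b1 h1
  have e2 := invol a2 b2 h2
  have e3 := invol a3 b3 h3
  unfold EE EE'
  generalize (1 + vecMulVec a1 b1 : Matrix (Fin 3) (Fin 3) R₀) = A at *
  generalize (1 + vecMulVec a2 b2 : Matrix (Fin 3) (Fin 3) R₀) = B at *
  generalize (1 + vecMulVec a3 b3 : Matrix (Fin 3) (Fin 3) R₀) = C at *
  calc C * (B * A) * (A * (B * C)) = C * (B * ((A * A) * (B * C))) := by
        simp only [Matrix.mul_assoc]
    _ = C * ((B * B) * C) := by rw [e1, Matrix.one_mul]; simp only [Matrix.mul_assoc]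
    _ = 1 := by rw [e2, Matrix.one_mul, e3]

theorem mv (a b x : Fin 3 → R₀) : (1 + vecMulVec a b) *ᵥ x = x + (b ⬝ᵥ x) • a := by
  rw [Matrix.add_mulVec, Matrix.one_mulVec, vecMulVec_mulVec]
  simp

theorem EE_mulVec (x : Fin 3 → R₀) : EE *ᵥ x =
    (1 + vecMulVec a1 b1) *ᵥ ((1 + vecMulVec a2 b2) *ᵥ ((1 + vecMulVec a3 b3) *ᵥ x)) := by
  rw [EE, ← Matrix.mulVec_mulVec, ← Matrix.mulVec_mulVec]

/-- the unimodular column over `A` -/
def v1 : Fin 3 → AA :=
  ![1 + el (cc ll * yy), el (cc ll * cc ww * xx), el (cc ll) + el (cc ll * yy)]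

theorem EE_col0 : EE *ᵥ ![1, 0, 0] = fun i => ((v1 i : AA) : R₀) := by
  rw [EE_mulVec, mv, mv, mv]
  have hF : ff = yy ^ 2 + cc ww * xx ^ 2 := rfl
  have hmu := cc_mu
  have h2 := two_R₀
  ext1 i
  fin_cases i
  · simp [dotProduct, Fin.sum_univ_three, a1, b1, a2, b2, a3, b3, v1, el_coe]
    generalize (cc mu : R₀) = M at *
    generalize (cc ll : R₀) = L at *
    generalize (cc ww : R₀) = W at *
    linear_combination (yy + yy ^ 2 + L * yy ^ 2) * h2 + yy ^ 2 * hmu - L * yy * hF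
  · simp [dotProduct, Fin.sum_univ_three, a1, b1, a2, b2, a3, b3, v1, el_coe]
    generalize (cc mu : R₀) = M at *
    generalize (cc ll : R₀) = L at *
    generalize (cc ww : R₀) = W at *
    linear_combination (W * xx + W * xx * yy + W * xx * L * yy) * h2 + W * xx * yy * hmu -
      L * W * xx * hF
  · simp [dotProduct, Fin.sum_univ_three, a1, b1, a2, b2, a3, b3, v1, el_coe]
    generalize (cc mu : R₀) = M at *
    generalize (cc ll : R₀) = L at *
    generalize (cc ww : R₀) = W at *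
    linear_combination (yy + L * yy + yy ^ 2 + L * yy ^ 2) * h2 + (yy + yy ^ 2) * hmu -
      (L + L * yy) * hF

theorem EE_col1 : EE *ᵥ ![0, 1, 0] =
    ![cc ll * xx * yy, 1 + cc (ww * ll) * xx ^ 2, cc ll * xx * (1 + yy)] := by
  rw [EE_mulVec, mv, mv, mv]
  have hm : (cc (ww * ll) : R₀) = cc ww * cc ll := map_mul _ _ _
  rw [hm]
  ext1 i
  fin_cases i
  · simp [dotProduct, Fin.sum_univ_three, a1, b1, a2, b2, a3, b3]
  · simp [dotProduct, Fin.sum_univ_three, a1, b1, a2, b2, a3, b3]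
    ring
  · simp [dotProduct, Fin.sum_univ_three, a1, b1, a2, b2, a3, b3]
    ring

theorem map_mul_one {R S : Type} [CommRing R] [CommRing S] (g : R →+* S)
    {A B : Matrix (Fin 3) (Fin 3) R} (h : A * B = 1) : A.map g * B.map g = 1 := by
  rw [← Matrix.map_mul, h]
  exact Matrix.map_one _ (map_zero _) (map_one _)

theorem no_completion (σ σ' : Matrix (Fin 3) (Fin 3) AA) (hσ : σ * σ' = 1)
    (hv : σ *ᵥ ![1, 0, 0] = v1) : False := by
  have hσ' : σ' * σ = 1 := mul_eq_one_comm.1 hσ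
  -- normalize at the origin
  let τ : Matrix (Fin 3) (Fin 3) AA := σ * (σ'.map eps).map cst
  let τ' : Matrix (Fin 3) (Fin 3) AA := (σ.map eps).map cst * σ'
  have hττ' : τ * τ' = 1 := by
    calc τ * τ' = σ * ((σ'.map eps).map cst * (σ.map eps).map cst) * σ' := by
          simp only [τ, τ', Matrix.mul_assoc]
      _ = 1 := by rw [map_mul_one cst (map_mul_one eps hσ'), Matrix.mul_one, hσ]
  have hτ'eps : τ'.map eps = 1 := by
    have h0 : ((σ.map eps).map cst).map eps = σ.map eps := by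
      ext i j
      simp only [Matrix.map_apply]
      exact eps_cst _
    show (((σ.map eps).map cst) * σ').map eps = 1
    rw [Matrix.map_mul, h0]
    exact map_mul_one eps hσ
  -- first column of `τ`
  have hτcol : τ *ᵥ ![1, 0, 0] = v1 := by
    have g1 : (σ.map eps) *ᵥ ![1, 0, 0] = ![1, 0, 0] := by
      have g2 : eps ∘ (σ *ᵥ ![1, 0, 0]) = (σ.map eps) *ᵥ ![1, 0, 0] := by
        ext i
        simp [Matrix.mulVec, dotProduct, Fin.sum_univ_three]
      rw [← g2, hv]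
      ext i
      fin_cases i <;> simp [v1, eps_el]
    have g3 : (σ'.map eps) *ᵥ ![1, 0, 0] = ![1, 0, 0] := by
      conv_lhs => rw [← g1]
      rw [Matrix.mulVec_mulVec, map_mul_one eps hσ', Matrix.one_mulVec]
    have g4 : ((σ'.map eps).map cst) *ᵥ ![1, 0, 0] = ![1, 0, 0] := by
      have g5 : cst ∘ ((σ'.map eps) *ᵥ ![1, 0, 0]) = ((σ'.map eps).map cst) *ᵥ ![1, 0, 0] := by
        ext i
        simp [Matrix.mulVec, dotProduct, Fin.sum_univ_three]
      rw [← g5, g3]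
      ext i
      fin_cases i <;> simp
    rw [← Matrix.mulVec_mulVec, g4, hv]
  -- pass to `k[X, Y]`
  let ι : AA →+* R₀ := AA.subtype
  let T : Matrix (Fin 3) (Fin 3) R₀ := τ.map ι
  let T' : Matrix (Fin 3) (Fin 3) R₀ := τ'.map ι
  have hTT' : T * T' = 1 := map_mul_one ι hττ'
  have hTcol : T *ᵥ ![1, 0, 0] = fun i => ((v1 i : AA) : R₀) := by
    have g2 : ι ∘ (τ *ᵥ ![1, 0, 0]) = (τ.map ι) *ᵥ ![1, 0, 0] := by
      ext1 i
      simp [Matrix.mulVec, dotProduct, Fin.sum_univ_three]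
    show (τ.map ι) *ᵥ ![1, 0, 0] = _
    rw [← g2, hτcol]
    rfl
  have hT' : ∀ i j, ∃ h : R₀, T' i j = (1 : Matrix (Fin 3) (Fin 3) R₀) i j + ff * h := by
    intro i j
    obtain ⟨h, hh⟩ := mem_form (τ' i j)
    refine ⟨h, ?_⟩
    show ((τ' i j : AA) : R₀) = _
    rw [hh]
    congr 1
    have : eps (τ' i j) = (1 : Matrix (Fin 3) (Fin 3) kk) i j := by
      rw [← hτ'eps]
      rfl
    rw [this, Matrix.one_apply, Matrix.one_apply]
    split_ifs
    · exact map_one _
    · exact map_zero _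
  choose H hH using hT'
  let Γ : Matrix (Fin 3) (Fin 3) R₀ := T' * EE
  let Γ' : Matrix (Fin 3) (Fin 3) R₀ := EE' * T
  have hΓ : Γ' * Γ = 1 := by
    calc Γ' * Γ = EE' * ((T * T') * EE) := by simp only [Γ, Γ', Matrix.mul_assoc]
      _ = 1 := by rw [hTT', Matrix.one_mul, EE'_EE]
  have hΓcol : Γ' *ᵥ ![1, 0, 0] = ![1, 0, 0] := by
    show (EE' * T) *ᵥ ![1, 0, 0] = _
    rw [← Matrix.mulVec_mulVec, hTcol, ← EE_col0, Matrix.mulVec_mulVec, EE'_EE, Matrix.one_mulVec]
  have hΓ10 : Γ' 1 0 = 0 := by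
    have := congrFun hΓcol 1
    simpa [Matrix.mulVec, dotProduct, Fin.sum_univ_three] using this
  have hcop : IsCoprime (Γ 1 1) (Γ 2 1) := by
    refine ⟨Γ' 1 1, Γ' 1 2, ?_⟩
    have := congrFun (congrFun hΓ 1) 1
    rw [Matrix.mul_apply, Fin.sum_univ_three, hΓ10, zero_mul, zero_add, Matrix.one_apply_eq] at this
    exact this
  have hE1 : ∀ i, EE i 1 = ![cc ll * xx * yy, 1 + cc (ww * ll) * xx ^ 2,
      cc ll * xx * (1 + yy)] i := by
    intro i
    rw [← EE_col1]
    simp [Matrix.mulVec, dotProduct, Fin.sum_univ_three]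
  have hΓi : ∀ i, Γ i 1 = EE i 1 + ff * ∑ j, H i j * EE j 1 := by
    intro i
    show (T' * EE) i 1 = _
    rw [Matrix.mul_apply]
    have : ∀ j, T' i j * EE j 1 = (1 : Matrix (Fin 3) (Fin 3) R₀) i j * EE j 1 +
        ff * (H i j * EE j 1) := by
      intro j
      rw [hH]
      ring
    have h5 : ∑ j, (1 : Matrix (Fin 3) (Fin 3) R₀) i j * EE j 1 = EE i 1 := by
      have h5 := congrFun (congrFun (Matrix.one_mul EE) i) 1
      rw [Matrix.mul_apply] at h5
      exact h5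
    rw [Finset.sum_congr rfl fun j _ => this j, Finset.sum_add_distrib, ← Finset.mul_sum, h5]
  have hP : Γ 1 1 = 1 + cc (ww * ll) * xx ^ 2 +
      (yy ^ 2 + cc ww * xx ^ 2) * ∑ j, H 1 j * EE j 1 := by
    rw [hΓi, hE1, ff]
    simp only [Matrix.cons_val_one, Matrix.cons_val_zero]
  have hR : Γ 2 1 = cc ll * xx * (1 + yy) +
      (yy ^ 2 + cc ww * xx ^ 2) * ∑ j, H 2 j * EE j 1 := by
    rw [hΓi, hE1, ff]
    simp only [Matrix.cons_val]
  generalize Γ 1 1 = P at hcop hP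
  generalize Γ 2 1 = R at hcop hR
  generalize (∑ j, H 1 j * EE j 1) = g₁ at hP
  generalize (∑ j, H 2 j * EE j 1) = g₂ at hR
  rw [xx, yy] at hP hR
  exact nonlift_kk P R hcop ⟨g₁, hP⟩ ⟨g₂, hR⟩

theorem hermite_false : ¬ ∀ (A : Type) [CommRing A], Hermite A → Hermite A[X] := by
  intro H
  obtain ⟨U, V, hUV, hVU⟩ := global_split H
  let ev : AA[X] →+* AA := Polynomial.evalRingHom 1
  let e : Fin 3 → AA := ![1, 0, 0]
  let u1 : Fin 3 → AA := fun i => ev (uT i)
  have hv1 : (fun i => ev (vT i)) = v1 := by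
    ext1 i
    fin_cases i <;> simp [vT, v1, ev]
  have huv : u1 ⬝ᵥ v1 = 1 := by
    have := congrArg ev uv_one
    rw [map_one] at this
    rw [← this, ← hv1]
    simp only [dotProduct, map_sum, map_mul, u1]
  have hee : e ⬝ᵥ e = 1 := by
    simp [e, dotProduct, Fin.sum_univ_three]
  have h1 : U.map ev * V.map ev = 1 - vecMulVec v1 u1 := by
    rw [← Matrix.map_mul, hUV]
    ext1 i j
    simp only [ET, Matrix.map_apply, Matrix.sub_apply, vecMulVec_apply, map_sub, map_mul]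
    rw [← hv1]
    congr 1
    rw [Matrix.one_apply, Matrix.one_apply]
    split_ifs
    · exact map_one ev
    · exact map_zero ev
  have h2 : V.map ev * U.map ev = 1 - vecMulVec e e := by
    rw [← Matrix.map_mul, hVU]
    ext1 i j
    have hv0 : ∀ i, (vT i).eval 0 = e i := by
      intro i
      fin_cases i <;> simp [vT, e]
    have hu0 : ∀ i, (uT i).eval 0 = e i := by
      intro i
      fin_cases i <;> simp [uT, e]
    show ev (C ((ET i j).eval 0)) = _
    have : ev (C ((ET i j).eval 0)) = (ET i j).eval 0 := by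
      show (C ((ET i j).eval 0)).eval 1 = _
      rw [eval_C]
    rw [this, ET, Matrix.sub_apply, vecMulVec_apply, Matrix.sub_apply, vecMulVec_apply, eval_sub,
      eval_mul, hv0, hu0, Matrix.one_apply, Matrix.one_apply]
    congr 1
    split_ifs <;> simp
  obtain ⟨σ, σ', hσ, hσv⟩ := complete _ _ v1 u1 e huv hee h1 h2
  exact no_completion σ σ' hσ hσv

end Pool.Agent.N37.HR
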