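import Pool.Agent.N37.HR.JPair

/-!
# Specialization: the invariant only depends on the invertible part
-/

set_option autoImplicit false
set_option linter.unusedSectionVars false

open Finset Matrix

noncomputable section

namespace Pool.Agent.N37.HR

variable {K : Type} [Field K] [CharP K 2]

theorem spec (θ : K →+ K) (hθ : ∀ a b, θ (a ^ 2 * b) = a ^ 2 * θ b) {n N : ℕ} (hn : 2 ≤ n)
    (a : K) (G C : Matrix (Fin n) (Fin n) K) (B M : Matrix (Fin N) (Fin N) K)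
    (Q : Matrix (Fin N) (Fin n) K) (Z : Matrix (Fin n) (Fin N) K) (m : ℕ)
    (hB : Bᵀ = B) (hM : Mᵀ = M) (hQBQ : Qᵀ * B * Q = G) (hMBQ : M * B * Q = Q * C)
    (hQZ : (M * B) ^ m = Q * Z) (hCrec : C ^ n = a • C ^ (n - 2))
    (hCcyc : ∀ j (h : j < n), C ^ j *ᵥ Pi.single (⟨0, by omega⟩ : Fin n) 1 = Pi.single ⟨j, h⟩ 1)
    (hdet : (G ⟨n - 2, by omega⟩ ⟨n - 2, by omega⟩ * G ⟨n - 1, by omega⟩ ⟨n - 1, by omega⟩ +
      G ⟨n - 2, by omega⟩ ⟨n - 1, by omega⟩ ^ 2 : K) ≠ 0) :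
    J θ M B = (a * G ⟨n - 2, by omega⟩ ⟨n - 1, by omega⟩ *
        θ (G ⟨n - 2, by omega⟩ ⟨n - 2, by omega⟩) +
        G ⟨n - 2, by omega⟩ ⟨n - 1, by omega⟩ * θ (G ⟨n - 1, by omega⟩ ⟨n - 1, by omega⟩)) /
        (G ⟨n - 2, by omega⟩ ⟨n - 2, by omega⟩ * G ⟨n - 1, by omega⟩ ⟨n - 1, by omega⟩ +
      G ⟨n - 2, by omega⟩ ⟨n - 1, by omega⟩ ^ 2) := by
  set i₀ : Fin n := ⟨n - 2, by omega⟩ with hi₀
  set i₁ : Fin n := ⟨n - 1, by omega⟩ with hi₁
  set z : Fin n := ⟨0, by omega⟩ with hz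
  set g₀ := G i₀ i₀ with hg₀
  set g₁ := G i₀ i₁ with hg₁
  set g₂ := G i₁ i₁ with hg₂
  have hGt : Gᵀ = G := by
    rw [← hQBQ]
    simp only [Matrix.transpose_mul, Matrix.transpose_transpose, hB, Matrix.mul_assoc]
  have hg₁' : G i₁ i₀ = g₁ := by
    rw [hg₁]
    conv_lhs => rw [← hGt]
    rfl
  obtain ⟨H, hH⟩ : ∃ H, H = M * B := ⟨_, rfl⟩
  rw [← hH] at hMBQ hQZ
  have hBH : B * H = Hᵀ * B := by
    rw [hH, Matrix.transpose_mul, hM, hB, Matrix.mul_assoc]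
  let e : Fin 2 → Fin n := ![i₀, i₁]
  let Q₂ : Matrix (Fin N) (Fin 2) K := Q.submatrix id e
  let C₂ : Matrix (Fin 2) (Fin 2) K := !![0, a; 1, 0]
  let G₂ : Matrix (Fin 2) (Fin 2) K := !![g₀, g₁; g₁, g₂]
  have hG₂ : Q₂ᵀ * B * Q₂ = G₂ := by
    have h1 : Q₂ᵀ * B * Q₂ = (Qᵀ * B * Q).submatrix e e := by
      ext i j
      simp only [Q₂, Matrix.mul_apply, Matrix.transpose_apply, Matrix.submatrix_apply, id]
    rw [h1, hQBQ]
    ext i j
    fin_cases i <;> fin_cases j <;> simp [e, G₂, hg₁', hg₀, hg₁, hg₂]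
  have hCcol : ∀ (x : Fin n → K) (j : Fin 2), (Q₂ *ᵥ Pi.single j 1) = Q *ᵥ Pi.single (e j) 1 := by
    intro x j
    rw [Matrix.mulVec_single_one, Matrix.mulVec_single_one]
    rfl
  have hC0 : C *ᵥ Pi.single i₀ 1 = Pi.single i₁ 1 := by
    rw [← hCcyc (n - 2) (by omega), ← hCcyc (n - 1) (by omega), Matrix.mulVec_mulVec,
      ← pow_succ']
    congr 2
    omega
  have hC1 : C *ᵥ Pi.single i₁ 1 = a • Pi.single i₀ 1 := by
    rw [← hCcyc (n - 2) (by omega), ← hCcyc (n - 1) (by omega), Matrix.mulVec_mulVec,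
      ← pow_succ']
    have h1 : n - 1 + 1 = n := by omega
    rw [h1, hCrec, Matrix.smul_mulVec]
  have hHQ : H * Q₂ = Q₂ * C₂ := by
    have h1 : ∀ j : Fin 2, H *ᵥ (Q₂ *ᵥ Pi.single j 1) = (Q₂ * C₂) *ᵥ Pi.single j 1 := by
      intro j
      rw [hCcol (Pi.single i₀ 1), Matrix.mulVec_mulVec, hMBQ, ← Matrix.mulVec_mulVec,
        ← Matrix.mulVec_mulVec]
      fin_cases j
      · show Q *ᵥ (C *ᵥ Pi.single i₀ 1) = Q₂ *ᵥ (C₂ *ᵥ Pi.single 0 1)
        have h2 : C₂ *ᵥ Pi.single 0 1 = Pi.single 1 1 := by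
          rw [Matrix.mulVec_single_one]
          ext i
          fin_cases i <;> simp [C₂]
        rw [hC0, h2, hCcol (Pi.single i₀ 1)]
        rfl
      · show Q *ᵥ (C *ᵥ Pi.single i₁ 1) = Q₂ *ᵥ (C₂ *ᵥ Pi.single 1 1)
        have h2 : C₂ *ᵥ Pi.single 1 1 = a • Pi.single 0 1 := by
          rw [Matrix.mulVec_single_one]
          ext i
          fin_cases i <;> simp [C₂]
        rw [hC1, h2, Matrix.mulVec_smul, Matrix.mulVec_smul, hCcol (Pi.single i₀ 1)]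
        rfl
    ext i j
    have h2 := congrFun (h1 j) i
    rw [Matrix.mulVec_mulVec, Matrix.mulVec_single_one, Matrix.mulVec_single_one] at h2
    exact h2
  -- the image of a large power of `H`
  have hHpow : ∀ l, H ^ l * Q = Q * C ^ l := by
    intro l
    induction l with
    | zero => simp
    | succ l ih => rw [pow_succ, Matrix.mul_assoc, hMBQ, ← Matrix.mul_assoc, ih, Matrix.mul_assoc,
        ← pow_succ]
  have hspan : ∀ j : ℕ, ∃ y : Fin 2 → K, Q *ᵥ (C ^ (n - 2 + j) *ᵥ Pi.single z 1) = Q₂ *ᵥ y := by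
    intro j
    induction j using Nat.strong_induction_on with
    | _ j ih =>
      match j, ih with
      | 0, _ =>
        refine ⟨Pi.single 0 1, ?_⟩
        rw [hCcol (Pi.single i₀ 1), Nat.add_zero, hCcyc (n - 2) (by omega)]
        rfl
      | 1, _ =>
        refine ⟨Pi.single 1 1, ?_⟩
        have h1 : n - 2 + 1 = n - 1 := by omega
        rw [hCcol (Pi.single i₀ 1), h1, hCcyc (n - 1) (by omega)]
        rfl
      | j + 2, ih =>
        obtain ⟨y, hy⟩ := ih j (by omega)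
        refine ⟨a • y, ?_⟩
        have h1 : C ^ (n - 2 + (j + 2)) = a • C ^ (n - 2 + j) := by
          have h2 : n - 2 + (j + 2) = n + j := by omega
          rw [h2, pow_add, hCrec, Matrix.smul_mul, ← pow_add]
        rw [h1, Matrix.smul_mulVec, Matrix.mulVec_smul, hy, Matrix.mulVec_smul]
  have hY : ∃ Y : Matrix (Fin 2) (Fin n) K, Q * C ^ (n - 2) = Q₂ * Y := by
    choose y hy using fun j : Fin n => hspan j
    refine ⟨Matrix.of fun i j => y j i, ?_⟩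
    ext i j
    have h1 := congrFun (hy j) i
    rw [pow_add, ← Matrix.mulVec_mulVec, hCcyc j j.2, Matrix.mulVec_mulVec,
      Matrix.mulVec_single_one] at h1
    exact h1
  obtain ⟨Y, hY⟩ := hY
  have hHm : H ^ (n - 2 + m) = Q₂ * (Y * Z) := by
    rw [pow_add, hQZ, ← Matrix.mul_assoc, hHpow, hY, Matrix.mul_assoc]
  -- inverse of `G₂`
  have hdet₂ : G₂.det = g₀ * g₂ + g₁ ^ 2 := by
    rw [Matrix.det_fin_two_of]
    have : (-(g₁ * g₁) : K) = g₁ * g₁ := CharTwo.neg_eq _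
    rw [sub_eq_add_neg, this]
    ring
  have hu : IsUnit G₂.det := by
    rw [hdet₂]
    exact isUnit_iff_ne_zero.2 hdet
  have hG₂t : G₂ᵀ = G₂ := by
    ext i j
    fin_cases i <;> fin_cases j <;> simp [G₂]
  have hG₂it : (G₂⁻¹)ᵀ = G₂⁻¹ := by rw [Matrix.transpose_nonsing_inv, hG₂t]
  have hGC : G₂ * C₂ = C₂ᵀ * G₂ := by
    calc G₂ * C₂ = Q₂ᵀ * B * (Q₂ * C₂) := by rw [← hG₂]; simp only [Matrix.mul_assoc]
      _ = Q₂ᵀ * (B * H) * Q₂ := by rw [← hHQ]; simp only [Matrix.mul_assoc]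
      _ = (H * Q₂)ᵀ * B * Q₂ := by rw [hBH, Matrix.transpose_mul]; simp only [Matrix.mul_assoc]
      _ = C₂ᵀ * (Q₂ᵀ * B * Q₂) := by rw [hHQ, Matrix.transpose_mul]; simp only [Matrix.mul_assoc]
      _ = _ := by rw [hG₂]
  have hCGi : C₂ * G₂⁻¹ = G₂⁻¹ * C₂ᵀ := by
    calc C₂ * G₂⁻¹ = G₂⁻¹ * (G₂ * C₂) * G₂⁻¹ := by
          rw [← Matrix.mul_assoc, Matrix.nonsing_inv_mul _ hu, Matrix.one_mul]
      _ = G₂⁻¹ * C₂ᵀ * (G₂ * G₂⁻¹) := by rw [hGC]; simp only [Matrix.mul_assoc]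
      _ = _ := by rw [Matrix.mul_nonsing_inv _ hu, Matrix.mul_one]
  -- the idempotent
  let E : Matrix (Fin N) (Fin N) K := Q₂ * G₂⁻¹ * Q₂ᵀ * B
  let E' : Matrix (Fin N) (Fin N) K := 1 - E
  have hEQ : E * Q₂ = Q₂ := by
    calc E * Q₂ = Q₂ * (G₂⁻¹ * (Q₂ᵀ * B * Q₂)) := by simp only [E, Matrix.mul_assoc]
      _ = Q₂ := by rw [hG₂, Matrix.nonsing_inv_mul _ hu, Matrix.mul_one]
  have hEE : E * E = E := by
    calc E * E = (E * Q₂) * G₂⁻¹ * Q₂ᵀ * B := by simp only [E, Matrix.mul_assoc]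
      _ = E := by rw [hEQ]
  have hEB : Eᵀ * B = B * E := by
    simp only [E, Matrix.transpose_mul, Matrix.transpose_transpose, hB, hG₂it, Matrix.mul_assoc]
  have hHE : H * E = E * H := by
    calc H * E = (H * Q₂) * G₂⁻¹ * Q₂ᵀ * B := by simp only [E, Matrix.mul_assoc]
      _ = Q₂ * (C₂ * G₂⁻¹) * Q₂ᵀ * B := by rw [hHQ]; simp only [Matrix.mul_assoc]
      _ = Q₂ * G₂⁻¹ * (H * Q₂)ᵀ * B := by
        rw [hCGi, hHQ, Matrix.transpose_mul]; simp only [Matrix.mul_assoc]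
      _ = Q₂ * G₂⁻¹ * Q₂ᵀ * (Hᵀ * B) := by rw [Matrix.transpose_mul]; simp only [Matrix.mul_assoc]
      _ = E * H := by rw [← hBH]; simp only [E, Matrix.mul_assoc]
  have hE'E' : E' * E' = E' := by
    simp only [E', Matrix.sub_mul, Matrix.mul_sub, Matrix.one_mul, Matrix.mul_one, hEE]
    simp
  have hE'B : E'ᵀ * B = B * E' := by
    simp only [E', Matrix.transpose_sub, Matrix.transpose_one, Matrix.sub_mul, Matrix.mul_sub,
      Matrix.one_mul, Matrix.mul_one, hEB]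
  have hHE' : H * E' = E' * H := by
    simp only [E', Matrix.sub_mul, Matrix.mul_sub, Matrix.one_mul, Matrix.mul_one, hHE]
  -- the first part
  have p1 : J θ M (B * E) = J θ (C₂ * G₂⁻¹) G₂ := by
    have h1 : B * E = (Q₂ᵀ * B)ᵀ * G₂⁻¹ * (Q₂ᵀ * B) := by
      simp only [E, Matrix.transpose_mul, Matrix.transpose_transpose, hB, Matrix.mul_assoc]
    rw [h1, ← J_adj θ hθ (Q₂ᵀ * B) M G₂⁻¹ hM hG₂it]
    have h2 : Q₂ᵀ * B * M * (Q₂ᵀ * B)ᵀ = G₂ * (C₂ * G₂⁻¹) * G₂ᵀ := by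
      calc Q₂ᵀ * B * M * (Q₂ᵀ * B)ᵀ = Q₂ᵀ * B * (H * Q₂) := by
            simp only [hH, Matrix.transpose_mul, Matrix.transpose_transpose, hB, Matrix.mul_assoc]
        _ = (Q₂ᵀ * B * Q₂) * C₂ := by rw [hHQ]; simp only [Matrix.mul_assoc]
        _ = G₂ * C₂ * (G₂⁻¹ * G₂) := by
            rw [hG₂, Matrix.nonsing_inv_mul _ hu, Matrix.mul_one]
        _ = _ := by rw [hG₂t]; simp only [Matrix.mul_assoc]
    have h3 : (C₂ * G₂⁻¹)ᵀ = C₂ * G₂⁻¹ := by
      rw [Matrix.transpose_mul, hG₂it, hCGi]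
    rw [h2, J_adj θ hθ G₂ (C₂ * G₂⁻¹) G₂⁻¹ h3 hG₂it, hG₂t, Matrix.mul_nonsing_inv _ hu,
      Matrix.one_mul]
  -- the second part
  have p2 : J θ M (B * E') = 0 := by
    have hB'' : (B * E')ᵀ = B * E' := by
      rw [Matrix.transpose_mul, hB, hE'B]
    have hM'' : (E' * M * E'ᵀ)ᵀ = E' * M * E'ᵀ := by
      simp only [Matrix.transpose_mul, Matrix.transpose_transpose, hM, Matrix.mul_assoc]
    have h1 : J θ M (B * E') = J θ (E' * M * E'ᵀ) (B * E') := by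
      rw [J_adj θ hθ E' M (B * E') hM hB'']
      congr 1
      rw [← Matrix.mul_assoc, hE'B, Matrix.mul_assoc, Matrix.mul_assoc, hE'E', hE'E']
    rw [h1]
    apply J_nilp θ hθ _ _ _ hM'' hB''
    have h2 : E' * M * E'ᵀ * (B * E') = E' * H := by
      calc E' * M * E'ᵀ * (B * E') = E' * M * (E'ᵀ * B) * E' := by simp only [Matrix.mul_assoc]
        _ = E' * (H * (E' * E')) := by rw [hE'B]; simp only [hH, Matrix.mul_assoc]
        _ = (E' * E') * H := by rw [hE'E', hHE', ← Matrix.mul_assoc, hE'E']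
        _ = E' * H := by rw [hE'E']
    have h3 : ∀ l : ℕ, (E' * H) ^ (l + 1) = E' * H ^ (l + 1) := by
      intro l
      induction l with
      | zero => simp
      | succ l ih =>
        rw [pow_succ, ih]
        calc E' * H ^ (l + 1) * (E' * H) = E' * (H ^ (l + 1) * E') * H := by
              simp only [Matrix.mul_assoc]
          _ = E' * (E' * H ^ (l + 1)) * H := by
              have : Commute H E' := hHE'
              rw [(this.pow_left (l + 1)).eq]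
          _ = E' * H ^ (l + 1 + 1) := by
              rw [← Matrix.mul_assoc, hE'E', Matrix.mul_assoc, ← pow_succ]
    refine ⟨n - 2 + m + 1, ?_⟩
    rw [h2, h3, pow_succ, hHm]
    have h4 : E' * Q₂ = 0 := by
      simp only [E', Matrix.sub_mul, Matrix.one_mul, hEQ, sub_self]
    rw [← Matrix.mul_assoc, ← Matrix.mul_assoc, h4, Matrix.zero_mul, Matrix.zero_mul]
  have hsplit : J θ M B = J θ M (B * E) + J θ M (B * E') := by
    rw [← J_add_right]
    congr 1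
    simp only [E', Matrix.mul_sub, Matrix.mul_one]
    abel
  rw [hsplit, p1, p2, add_zero]
  -- explicit computation
  have hinv : G₂⁻¹ = (g₀ * g₂ + g₁ ^ 2)⁻¹ • !![g₂, g₁; g₁, g₀] := by
    rw [Matrix.inv_def, hdet₂, Ring.inverse_eq_inv', Matrix.adjugate_fin_two_of]
    congr 1
    rw [CharTwo.neg_eq]
  rw [hinv]
  simp only [J, Fin.sum_univ_two, C₂, G₂]
  rw [Matrix.mul_smul, Matrix.smul_apply, Matrix.smul_apply]
  simp
  field_simp
  
end Pool.Agent.N37.HR
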