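import Pool.Agent.N37.HR.Chart2
import Pool.Agent.N37.HR.Spec

/-!
# The column `(1 + w l X², l X (1 + Y))` does not lift to a unimodular column
-/

set_option autoImplicit false
set_option linter.unusedSectionVars false

open Finset Polynomial Matrix

noncomputable section

namespace Pool.Agent.N37.HR

section thetaK

variable {k : Type} [Field k] [CharP k 2]

theorem th0_C_mul (δ : k →+ k) (w : k) (hw : ∀ b, δ (w * b) = w * δ b) (h : k[X]) :
    th0 δ (C w * h) = C w * th0 δ h := by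
  induction h using Polynomial.induction_on' with
  | add f g hf hg => rw [mul_add, map_add, hf, hg, map_add, mul_add]
  | monomial i a =>
    rw [C_mul_monomial, th0_apply, th0_apply, cw_monomial, cw_monomial, derivative_monomial,
      derivative_monomial, C_mul_monomial, hw, mul_assoc]

theorem exists_thetaK (δ : k →+ k) (hδ : SL δ) (w : k) (hw : ∀ b, δ (w * b) = w * δ b) :
    ∃ θ : AdjoinRoot (X ^ 2 - C w : k[X]) →+ AdjoinRoot (X ^ 2 - C w : k[X]),
      (∀ f : k[X], θ (AdjoinRoot.mk _ f) = AdjoinRoot.mk _ (th0 δ f)) ∧ SL θ := by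
  set g : k[X] := X ^ 2 - C w with hg
  have hker : ∀ f : k[X], AdjoinRoot.mk g f = 0 → AdjoinRoot.mk g (th0 δ f) = 0 := by
    intro f hf
    rw [AdjoinRoot.mk_eq_zero] at hf ⊢
    obtain ⟨h, rfl⟩ := hf
    refine ⟨th0 δ h, ?_⟩
    rw [hg, sub_mul, sub_mul, map_sub, th0_SL δ hδ, th0_C_mul δ w hw]
  have hsurj : Function.Surjective (AdjoinRoot.mk g) := AdjoinRoot.mk_surjective
  choose rep hrep using hsurj
  have key : ∀ f : k[X], AdjoinRoot.mk g (th0 δ (rep (AdjoinRoot.mk g f))) =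
      AdjoinRoot.mk g (th0 δ f) := by
    intro f
    rw [← sub_eq_zero, ← map_sub, ← map_sub]
    apply hker
    rw [map_sub, hrep, sub_self]
  let θ : AdjoinRoot g →+ AdjoinRoot g :=
    { toFun := fun z => AdjoinRoot.mk g (th0 δ (rep z))
      map_zero' := by
        have := key 0
        rw [map_zero, map_zero, map_zero] at this
        exact this
      map_add' := by
        intro x y
        have h1 : x + y = AdjoinRoot.mk g (rep x + rep y) := by rw [map_add, hrep, hrep]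
        rw [h1, key, map_add, map_add] }
  have hθ : ∀ f : k[X], θ (AdjoinRoot.mk g f) = AdjoinRoot.mk g (th0 δ f) := key
  refine ⟨θ, hθ, ?_⟩
  intro a b
  obtain ⟨a, rfl⟩ := AdjoinRoot.mk_surjective a
  obtain ⟨b, rfl⟩ := AdjoinRoot.mk_surjective b
  rw [← map_pow, ← map_mul, hθ, th0_SL δ hδ, map_mul, hθ]

end thetaK

theorem sum_two {A M : Type} [Ring A] [AddCommGroup M] [Module A M] (n : ℕ) (hn : 2 ≤ n)
    (c : ℕ → A) (a : A) (h0 : c 0 = 1) (h2 : c 2 = a) (h1 : c 1 = 0) (h3 : ∀ j, 3 ≤ j → c j = 0)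
    (x : ℕ → M) : ∑ i ∈ range (n + 1), c (n - i) • x i = x n + a • x (n - 2) := by
  obtain ⟨m, rfl⟩ := Nat.exists_eq_add_of_le' hn
  rw [Finset.sum_range_succ, Finset.sum_range_succ, Finset.sum_range_succ, Finset.sum_eq_zero]
  · have e1 : m + 2 - m = 2 := by omega
    have e2 : m + 2 - (m + 1) = 1 := by omega
    have e3 : m + 2 - (m + 2) = 0 := by omega
    have e4 : m + 2 - 2 = m := by omega
    rw [e1, e2, e3, e4, h0, h1, h2, one_smul, zero_smul, zero_add, add_zero, add_comm]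
  · intro i hi
    have : i < m := Finset.mem_range.1 hi
    rw [h3 _ (by omega), zero_smul]

theorem sum_two' {A : Type} [CommRing A] (D : ℕ) (hD : 2 ≤ D) (r : ℕ → A) (h0 : r 0 = 0)
    (h3 : ∀ j, 3 ≤ j → r j = 0) (x : ℕ → A) :
    ∑ i ∈ range (D + 1), r i * x i = r 1 * x 1 + r 2 * x 2 := by
  obtain ⟨m, rfl⟩ := Nat.exists_eq_add_of_le' hD
  rw [Finset.sum_range_succ', Finset.sum_range_succ', Finset.sum_range_succ', Finset.sum_eq_zero]
  · rw [h0]
    ring
  · intro i hi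
    rw [h3 _ (by omega), zero_mul]

section main

variable {k : Type} [Field k] [CharP k 2]

open MvPolynomial in
theorem nonlift_aux (δ : k →+ k) (hδ : SL δ) (w l : k) (hδw : ∀ b, δ (w * b) = w * δ b)
    (hδ1 : δ 1 = 0) (hδl : δ l = 1) (hw0 : w ≠ 0) (hl0 : l ≠ 0) (hl1 : 1 + l ≠ 0)
    {K : Type} [Field K] [CharP K 2] (φ : k[X] →+* K) (θ : K →+ K)
    (hθ : ∀ f : k[X], θ (φ f) = φ (th0 δ f)) (hθSL : SL θ)
    (hs : φ Polynomial.X ^ 2 = φ (Polynomial.C w))
    (P R : MvPolynomial (Fin 2) k) (hcop : IsCoprime P R)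
    (hP : ∃ g, P = 1 + MvPolynomial.C (w * l) * X 0 ^ 2 + (X 1 ^ 2 + MvPolynomial.C w * X 0 ^ 2) * g)
    (hR : ∃ g, R = MvPolynomial.C l * X 0 * (1 + X 1) +
      (X 1 ^ 2 + MvPolynomial.C w * X 0 ^ 2) * g) : False := by
  have hφinj : ∀ c : k, c ≠ 0 → φ (Polynomial.C c) ≠ 0 := by
    intro c hc h
    have : (φ.comp Polynomial.C) c = 0 := h
    exact hc ((map_eq_zero_iff _ (φ.comp Polynomial.C).injective).1 this)
  let s : K := φ Polynomial.X
  let w' : K := φ (Polynomial.C w)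
  let l' : K := φ (Polynomial.C l)
  have hs : s ^ 2 = w' := hs
  have hw'0 : w' ≠ 0 := hφinj w hw0
  have hl'0 : l' ≠ 0 := hφinj l hl0
  have hl'1 : 1 + l' ≠ 0 := by
    have := hφinj (1 + l) hl1
    rw [Polynomial.C_add, map_add, Polynomial.C_1, map_one] at this
    exact this
  have hs0 : s ≠ 0 := by
    intro h
    rw [h] at hs
    exact hw'0 (by rw [← hs]; ring)
  let a : K := w' * l'
  have ha0 : a ≠ 0 := mul_ne_zero hw'0 hl'0
  -- the specialized polynomials
  let Ψ : MvPolynomial (Fin 2) k →+* K[X] := (mapRingHom φ).comp (Ph1 k)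
  have hΨC : ∀ c, Ψ (MvPolynomial.C c) = Polynomial.C (φ (Polynomial.C c)) := by
    intro c
    simp [Ψ, Ph1]
  have hΨ0 : Ψ (X 0) = Polynomial.X := by simp [Ψ, Ph1]
  have hΨ1 : Ψ (X 1) = Polynomial.C s * Polynomial.X := by simp [Ψ, Ph1, s]
  have hΨf : Ψ (X 1 ^ 2 + MvPolynomial.C w * X 0 ^ 2) = 0 := by
    rw [map_add, map_mul, map_pow, map_pow, hΨ0, hΨ1, hΨC, mul_pow, ← Polynomial.C_pow, hs]
    show Polynomial.C w' * Polynomial.X ^ 2 + Polynomial.C w' * Polynomial.X ^ 2 = 0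
    exact CharTwo.add_self_eq_zero _
  have hΨP : Ψ P = 1 + Polynomial.C a * Polynomial.X ^ 2 := by
    obtain ⟨g, rfl⟩ := hP
    rw [map_add, map_mul Ψ (_ + _), hΨf, zero_mul, add_zero, map_add, map_one, map_mul, map_pow,
      hΨ0, hΨC, Polynomial.C_mul, map_mul]
  have hΨR : Ψ R = Polynomial.C l' * Polynomial.X + Polynomial.C (l' * s) * Polynomial.X ^ 2 := by
    obtain ⟨g, rfl⟩ := hR
    rw [map_add, map_mul Ψ (X 1 ^ 2 + _), hΨf, zero_mul, add_zero, map_mul, map_mul, map_add,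
      map_one, hΨ0, hΨ1, hΨC, Polynomial.C_mul]
    ring
  have hpc : ∀ j, φ ((Ph1 k P).coeff j) = (1 + Polynomial.C a * Polynomial.X ^ 2 : K[X]).coeff j := by
    intro j
    rw [← hΨP]
    simp [Ψ]
  have hrc : ∀ j, φ ((Ph1 k R).coeff j) = (Polynomial.C l' * Polynomial.X +
      Polynomial.C (l' * s) * Polynomial.X ^ 2 : K[X]).coeff j := by
    intro j
    rw [← hΨR]
    simp [Ψ]
  have hp0 : φ ((Ph1 k P).coeff 0) = 1 := by
    rw [hpc]; simp
  have hp1 : φ ((Ph1 k P).coeff 1) = 0 := by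
    rw [hpc]; simp [Polynomial.coeff_one, Polynomial.coeff_X_pow]
  have hp2 : φ ((Ph1 k P).coeff 2) = a := by
    rw [hpc]; simp [Polynomial.coeff_one]
  have hp3 : ∀ j, 3 ≤ j → φ ((Ph1 k P).coeff j) = 0 := by
    intro j hj
    rw [hpc]
    simp only [Polynomial.coeff_add, Polynomial.coeff_C_mul, Polynomial.coeff_X_pow,
      Polynomial.coeff_one]
    rw [if_neg (by omega), if_neg (by omega)]
    ring
  have hr0 : φ ((Ph1 k R).coeff 0) = 0 := by
    rw [hrc]; simp
  have hr1 : φ ((Ph1 k R).coeff 1) = l' := by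
    rw [hrc, Polynomial.coeff_add, Polynomial.coeff_C_mul, Polynomial.coeff_C_mul,
      Polynomial.coeff_X_pow]
    simp
  have hr2 : φ ((Ph1 k R).coeff 2) = l' * s := by
    rw [hrc, Polynomial.coeff_add, Polynomial.coeff_C_mul, Polynomial.coeff_C_mul,
      Polynomial.coeff_X_pow, Polynomial.coeff_X]
    simp
  have hr3 : ∀ j, 3 ≤ j → φ ((Ph1 k R).coeff j) = 0 := by
    intro j hj
    rw [hrc]
    simp only [Polynomial.coeff_add, Polynomial.coeff_C_mul, Polynomial.coeff_X_pow,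
      Polynomial.coeff_X]
    rw [if_neg (by omega), if_neg (by omega)]
    ring
  -- degrees
  let n := (Ph1 k P).natDegree
  have hn2 : 2 ≤ n := by
    apply le_natDegree_of_ne_zero
    intro h
    rw [h, map_zero] at hp2
    exact ha0 hp2.symm
  have hn0 : 0 < n := by omega
  let ρ := (Ph1 k R).natDegree
  have hP0 : constantCoeff P = 1 := by
    obtain ⟨g, rfl⟩ := hP
    simp
  have hchart := chart δ hδ P R hcop hP0 n (n + 1 + 2 * ρ) rfl hn0 (by
    show ρ ≤ _
    omega)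
  obtain ⟨D, hD⟩ : ∃ D, D = 2 * (n + 1 + 2 * ρ) + (n - 1) := ⟨_, rfl⟩
  rw [← hD] at hchart
  obtain ⟨d, hd⟩ := hchart
  -- the specialized sequence
  let t : ℕ → K := fun i => φ (d.t i)
  have htrec : ∀ i, t (n + i) = a * t (n - 2 + i) := by
    intro i
    have h1 := congrArg φ (d.trec i)
    rw [map_sum, map_zero] at h1
    have h2 := sum_two (A := K) (M := K) n hn2 (fun j => φ ((Ph1 k P).coeff j)) a hp0 hp2 hp1 hp3
      (fun j => φ (d.t (i + j)))
    simp only [smul_eq_mul] at h2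
    have h3 : ∑ x ∈ range (n + 1), φ ((Ph1 k P).coeff (n - x) * d.t (i + x)) =
        ∑ x ∈ range (n + 1), φ ((Ph1 k P).coeff (n - x)) * φ (d.t (i + x)) :=
      Finset.sum_congr rfl fun x _ => map_mul _ _ _
    rw [h3, h2] at h1
    show φ (d.t (n + i)) = a * φ (d.t (n - 2 + i))
    rw [add_comm n i, add_comm (n - 2) i]
    have h4 := CharTwo.add_eq_zero.1 h1
    exact h4
  have ht0 : ∀ j, t (n - 2 + 2 * j) = 0 := by
    intro j
    induction j with
    | zero =>
      show φ (d.t (n - 2)) = 0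
      rw [d.t0 (n - 2) (by omega), map_zero]
    | succ j ih =>
      have e : n - 2 + 2 * (j + 1) = n + 2 * j := by omega
      rw [e, htrec, ih, mul_zero]
  have ht1 : ∀ j, t (n - 1 + 2 * j) = a ^ j := by
    intro j
    induction j with
    | zero =>
      show φ (d.t (n - 1)) = a ^ 0
      rw [d.t1, map_one, pow_zero]
    | succ j ih =>
      have e : n - 1 + 2 * (j + 1) = n + (2 * j + 1) := by omega
      have e' : n - 2 + (2 * j + 1) = n - 1 + 2 * j := by omega
      rw [e, htrec, e', ih, pow_succ']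
  have hmom : ∀ j, φ (mom (Ph1 k R) d.t D j) = l' * t (D - 1 + j) + l' * s * t (D - 2 + j) := by
    intro j
    unfold mom
    rw [map_sum]
    have h3 : ∑ x ∈ range (D + 1), φ ((Ph1 k R).coeff x * d.t (D - x + j)) =
        ∑ x ∈ range (D + 1), φ ((Ph1 k R).coeff x) * φ (d.t (D - x + j)) :=
      Finset.sum_congr rfl fun x _ => map_mul _ _ _
    rw [h3, sum_two' D (by omega) (fun x => φ ((Ph1 k R).coeff x)) hr0 hr3
      (fun x => φ (d.t (D - x + j)))]
    simp only [hr1, hr2]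
    rfl
  let u : K := a ^ (n - 1 + ρ)
  have hu0 : u ≠ 0 := pow_ne_zero _ ha0
  have hg0 : (d.G.map φ) ⟨n - 2, by omega⟩ ⟨n - 2, by omega⟩ = l' * s * u ^ 2 := by
    rw [Matrix.map_apply, d.Gij, hmom]
    have e1 : D - 1 + (n - 2 + (n - 2)) = n - 2 + 2 * (2 * (n - 1) + 1 + 2 * ρ) := by omega
    have e2 : D - 2 + (n - 2 + (n - 2)) = n - 1 + 2 * (2 * (n - 1 + ρ)) := by omega
    show l' * t (D - 1 + (n - 2 + (n - 2))) + l' * s * t (D - 2 + (n - 2 + (n - 2))) = _
    rw [e1, e2, ht0, ht1, mul_zero, zero_add, mul_comm 2 (n - 1 + ρ), pow_mul]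
  have hg1 : (d.G.map φ) ⟨n - 2, by omega⟩ ⟨n - 1, by omega⟩ = l' * a * u ^ 2 := by
    rw [Matrix.map_apply, d.Gij, hmom]
    have e1 : D - 1 + (n - 2 + (n - 1)) = n - 1 + 2 * (2 * (n - 1 + ρ) + 1) := by omega
    have e2 : D - 2 + (n - 2 + (n - 1)) = n - 2 + 2 * (2 * (n - 1 + ρ) + 1) := by omega
    show l' * t (D - 1 + (n - 2 + (n - 1))) + l' * s * t (D - 2 + (n - 2 + (n - 1))) = _
    rw [e1, e2, ht0, ht1, mul_zero, add_zero, pow_succ, mul_comm 2 (n - 1 + ρ), pow_mul]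
    ring
  have hg2 : (d.G.map φ) ⟨n - 1, by omega⟩ ⟨n - 1, by omega⟩ = l' * s * a * u ^ 2 := by
    rw [Matrix.map_apply, d.Gij, hmom]
    have e1 : D - 1 + (n - 1 + (n - 1)) = n - 2 + 2 * (2 * (n - 1 + ρ) + 2) := by omega
    have e2 : D - 2 + (n - 1 + (n - 1)) = n - 1 + 2 * (2 * (n - 1 + ρ) + 1) := by omega
    show l' * t (D - 1 + (n - 1 + (n - 1))) + l' * s * t (D - 2 + (n - 1 + (n - 1))) = _
    rw [e1, e2, ht0, ht1, mul_zero, zero_add, pow_succ, mul_comm 2 (n - 1 + ρ), pow_mul]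
    ring
  have hdet : (l' * s * u ^ 2 * (l' * s * a * u ^ 2) + (l' * a * u ^ 2) ^ 2 : K) ≠ 0 := by
    have : (l' * s * u ^ 2 * (l' * s * a * u ^ 2) + (l' * a * u ^ 2) ^ 2 : K) =
        l' ^ 2 * u ^ 4 * a * w' * (1 + l') := by
      have e : (l' * s * u ^ 2 * (l' * s * a * u ^ 2) + (l' * a * u ^ 2) ^ 2 : K) =
        l' ^ 2 * u ^ 4 * a * (s ^ 2 + a) := by ring
      rw [e, hs]
      show _ * (w' + w' * l') = _
      ring
    rw [this]
    exact mul_ne_zero (mul_ne_zero (mul_ne_zero (mul_ne_zero (pow_ne_zero _ hl'0)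
      (pow_ne_zero _ hu0)) ha0) hw'0) hl'1
  -- specialization of the realization
  have hC : (d.C.map φ) ^ n = a • (d.C.map φ) ^ (n - 2) := by
    have hpow : ∀ i, (d.C ^ i).map φ = (d.C.map φ) ^ i := by
      intro i
      rw [← RingHom.mapMatrix_apply, map_pow, RingHom.mapMatrix_apply]
    have h1 : (∑ i ∈ range (n + 1), (Ph1 k P).coeff (n - i) • d.C ^ i).map φ = 0 := by
      rw [d.Crec]
      exact Matrix.map_zero _ (map_zero _)
    have h2 : (∑ i ∈ range (n + 1), (Ph1 k P).coeff (n - i) • d.C ^ i).map φ =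
        ∑ i ∈ range (n + 1), φ ((Ph1 k P).coeff (n - i)) • (d.C.map φ) ^ i := by
      rw [← RingHom.mapMatrix_apply, map_sum]
      refine Finset.sum_congr rfl fun i _ => ?_
      rw [← hpow]
      ext x y
      simp
    rw [h2, sum_two (A := K) (M := Matrix (Fin n) (Fin n) K) n hn2
      (fun j => φ ((Ph1 k P).coeff j)) a hp0 hp2 hp1 hp3 (fun i => (d.C.map φ) ^ i)] at h1
    have h3 : (d.C.map φ) ^ n + a • (d.C.map φ) ^ (n - 2) = 0 := h1
    have h4 : a • (d.C.map φ) ^ (n - 2) + a • (d.C.map φ) ^ (n - 2) = 0 := by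
      rw [← add_smul, CharTwo.add_self_eq_zero, zero_smul]
    exact add_right_cancel (h3.trans h4.symm)
  have hcyc : ∀ j (h : j < n), (d.C.map φ) ^ j *ᵥ Pi.single (⟨0, by omega⟩ : Fin n) 1 =
      Pi.single ⟨j, h⟩ 1 := by
    intro j hj
    have h1 := d.Ccyc j hj
    ext i
    have h2 := congrArg φ (congrFun h1 i)
    rw [Matrix.mulVec_single_one] at h2 ⊢
    have h3 : (d.C.map φ) ^ j = (d.C ^ j).map φ := by
      rw [← RingHom.mapMatrix_apply, ← map_pow, RingHom.mapMatrix_apply]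
    rw [h3]
    show φ ((d.C ^ j) i ⟨0, _⟩) = _
    have h4 : φ ((Pi.single ⟨j, hj⟩ 1 : Fin n → k[X]) i) = (Pi.single ⟨j, hj⟩ 1 : Fin n → K) i := by
      rw [Pi.single_apply, Pi.single_apply]
      split_ifs
      · exact map_one φ
      · exact map_zero φ
    rw [← h4]
    exact h2
  have main := spec θ hθSL hn2 a (d.G.map φ) (d.C.map φ) (d.B.map φ) (d.M.map φ) (d.Q.map φ)
    (d.Z.map φ) d.m (by rw [← Matrix.transpose_map, d.Bsymm])
    (by rw [← Matrix.transpose_map, d.Msymm])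
    (by rw [← Matrix.transpose_map, ← Matrix.map_mul, ← Matrix.map_mul, d.QBQ])
    (by rw [← Matrix.map_mul, ← Matrix.map_mul, d.MBQ, Matrix.map_mul])
    (by rw [← Matrix.map_mul, ← Matrix.map_mul, ← RingHom.mapMatrix_apply, ← map_pow, d.QZ,
          RingHom.mapMatrix_apply]) hC hcyc (by rw [hg0, hg1, hg2]; exact hdet)
  have hJ : J θ (d.M.map φ) (d.B.map φ) = φ (J (th0 δ) d.M d.B) := by
    unfold J
    rw [map_sum]
    refine Finset.sum_congr rfl fun i _ => ?_
    rw [Matrix.map_apply, Matrix.map_apply, map_mul]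
    congr 1
    exact hθ _
  rw [hJ, hd, map_zero, hg0, hg1, hg2] at main
  have e0 : θ (l' * s * u ^ 2) = u ^ 2 := by
    rw [mul_comm, hθSL]
    have h1 : l' * s = φ (Polynomial.monomial 1 l) := by
      rw [← Polynomial.C_mul_X_pow_eq_monomial, map_mul, pow_one]
    have h2 := th0_monomial_odd δ 0 l
    rw [mul_zero, zero_add] at h2
    rw [h1, hθ, h2, hδl]
    show _ * φ (Polynomial.monomial 0 1) = _
    rw [Polynomial.monomial_zero_left, Polynomial.C_1, map_one, mul_one]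
  have e1 : θ (l' * s * a * u ^ 2) = 0 := by
    have h0 : l' * s * a * u ^ 2 = (l' * u) ^ 2 * (w' * s) := by
      show l' * s * (w' * l') * u ^ 2 = _
      ring
    have h1 : w' * s = φ (Polynomial.monomial 1 w) := by
      rw [← Polynomial.C_mul_X_pow_eq_monomial, map_mul, pow_one]
    have h2 := th0_monomial_odd δ 0 w
    rw [mul_zero, zero_add] at h2
    have h3 : δ w = 0 := by
      have := hδw 1
      rw [mul_one, hδ1, mul_zero] at this
      exact this
    rw [h0, hθSL, h1, hθ, h2, h3]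
    simp
  rw [e0, e1, mul_zero, add_zero] at main
  have hne : a * (l' * a * u ^ 2) * u ^ 2 ≠ 0 :=
    mul_ne_zero (mul_ne_zero ha0 (mul_ne_zero (mul_ne_zero hl'0 ha0) (pow_ne_zero _ hu0)))
      (pow_ne_zero _ hu0)
  exact (div_ne_zero hne hdet) main.symm

open MvPolynomial in
/-- the column `(1 + w l X², l X (1 + Y))` over `k[X, Y] / (Y² + w X²)` does not lift to a
unimodular column over `k[X, Y]` -/
theorem nonlift (δ : k →+ k) (hδ : SL δ) (w l : k) (hδw : ∀ b, δ (w * b) = w * δ b)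
    (hδ1 : δ 1 = 0) (hδl : δ l = 1) (hw : ¬ ∃ c, c ^ 2 = w) (hl0 : l ≠ 0) (hl1 : 1 + l ≠ 0)
    (P R : MvPolynomial (Fin 2) k) (hcop : IsCoprime P R)
    (hP : ∃ g, P = 1 + MvPolynomial.C (w * l) * X 0 ^ 2 + (X 1 ^ 2 + MvPolynomial.C w * X 0 ^ 2) * g)
    (hR : ∃ g, R = MvPolynomial.C l * X 0 * (1 + X 1) +
      (X 1 ^ 2 + MvPolynomial.C w * X 0 ^ 2) * g) : False := by
  have hw0 : w ≠ 0 := by
    rintro rfl
    exact hw ⟨0, by ring⟩
  have hirr : Irreducible (Polynomial.X ^ 2 - Polynomial.C w : k[X]) := by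
    apply X_pow_sub_C_irreducible_of_prime Nat.prime_two
    intro b hb
    exact hw ⟨b, hb⟩
  have : Fact (Irreducible (Polynomial.X ^ 2 - Polynomial.C w : k[X])) := ⟨hirr⟩
  let φ : k[X] →+* AdjoinRoot (Polynomial.X ^ 2 - Polynomial.C w : k[X]) := AdjoinRoot.mk _
  have : CharP (AdjoinRoot (Polynomial.X ^ 2 - Polynomial.C w : k[X])) 2 :=
    charP_of_injective_ringHom (φ.comp Polynomial.C).injective 2
  obtain ⟨θ, hθ, hθSL⟩ := exists_thetaK δ hδ w hδw
  apply nonlift_aux δ hδ w l hδw hδ1 hδl hw0 hl0 hl1 φ θ hθ hθSL ?_ P R hcop hP hR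
  have : φ (Polynomial.X ^ 2 - Polynomial.C w) = 0 := AdjoinRoot.mk_self
  rw [map_sub, map_pow, sub_eq_zero] at this
  exact this

end main

end Pool.Agent.N37.HR
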