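import Pool.Agent.N37.HR.Chart
import Pool.Agent.N37.HR.NL

/-!
# The base field `k = F₂(w, l)`
-/

set_option autoImplicit false
set_option linter.unusedSectionVars false

open Polynomial

noncomputable section

namespace Pool.Agent.N37.HR

theorem SL_id (k : Type) [CommRing k] : SL (AddMonoidHom.id k) := fun _ _ => rfl

/-- the base field -/
abbrev k₀ : Type := RatFunc (ZMod 2)

/-- the base field -/
abbrev kk : Type := RatFunc k₀

instance : CharP k₀ 2 := inferInstance
instance : CharP kk 2 := inferInstance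

/-- `w` -/
def ww : kk := algebraMap k₀[X] kk (C (algebraMap (ZMod 2)[X] k₀ X))

/-- `l` -/
def ll : kk := algebraMap k₀[X] kk X

theorem exists_delta {k : Type} [Field k] [CharP k 2] :
    ∃ δ : RatFunc k →+ RatFunc k, SL δ ∧
      (∀ (a : k) b, δ (algebraMap k[X] (RatFunc k) (C a) * b) =
        algebraMap k[X] (RatFunc k) (C a) * δ b) ∧
      δ 1 = 0 ∧ δ (algebraMap k[X] (RatFunc k) X) = 1 := by
  obtain ⟨δ, h1, h2⟩ := exists_extend (F := RatFunc k) (th0 (AddMonoidHom.id k))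
    (th0_SL _ (SL_id k))
  refine ⟨δ, h2, ?_, ?_, ?_⟩
  · intro a b
    obtain ⟨x, y, hy, rfl⟩ := exists_frac (R := k[X]) b
    have hy' : algebraMap k[X] (RatFunc k) y ≠ 0 :=
      (map_ne_zero_iff _ (IsFractionRing.injective k[X] (RatFunc k))).2 hy
    have e1 : algebraMap k[X] (RatFunc k) x / algebraMap k[X] (RatFunc k) y =
        ((algebraMap k[X] (RatFunc k) y)⁻¹) ^ 2 * algebraMap k[X] (RatFunc k) (x * y) := by
      rw [map_mul]
      field_simp
    have e2 : algebraMap k[X] (RatFunc k) (C a) *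
        (algebraMap k[X] (RatFunc k) x / algebraMap k[X] (RatFunc k) y) =
        ((algebraMap k[X] (RatFunc k) y)⁻¹) ^ 2 *
          algebraMap k[X] (RatFunc k) (C a * (x * y)) := by
      rw [map_mul, map_mul]
      field_simp
    rw [e2, e1, h2, h2, h1, h1, th0_C_mul (AddMonoidHom.id k) a (fun _ => rfl), map_mul]
    ring
  · have := h1 1
    rw [map_one] at this
    rw [this]
    have h3 := th0_monomial_even (AddMonoidHom.id k) 0 1
    rw [mul_zero, monomial_zero_left, C_1] at h3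
    rw [h3, map_zero]
  · rw [h1]
    have h3 := th0_monomial_odd (AddMonoidHom.id k) 0 1
    rw [mul_zero, zero_add, monomial_one_one_eq_X] at h3
    rw [h3]
    show algebraMap k[X] (RatFunc k) (monomial 0 1) = 1
    rw [monomial_zero_left, C_1, map_one]

theorem ww_not_sq : ¬ ∃ c : kk, c ^ 2 = ww := by
  rintro ⟨c, hc⟩
  obtain ⟨δ₀, h1, h2, h3, h4⟩ := exists_delta (k := ZMod 2)
  obtain ⟨δ, g1, g2⟩ := exists_extend (F := kk) (cw δ₀) (cw_SL δ₀ h1)
  have e1 : δ 1 = 0 := by
    have := g1 1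
    rw [map_one] at this
    rw [this, ← C_1, cw_C, h3, C_0, map_zero]
  have e2 : δ ww = 1 := by
    rw [ww, g1, cw_C, h4, C_1, map_one]
  rw [← hc, ← mul_one (c ^ 2), g2, e1, mul_zero] at e2
  exact zero_ne_one e2

theorem ll_ne : ll ≠ 0 := by
  rw [ll, RatFunc.algebraMap_X]
  exact RatFunc.X_ne_zero

theorem one_add_ll_ne : 1 + ll ≠ 0 := by
  rw [ll, ← map_one (algebraMap k₀[X] kk), ← map_add]
  rw [map_ne_zero_iff _ (IsFractionRing.injective k₀[X] kk)]
  intro h
  have := congrArg (fun f : k₀[X] => f.coeff 1) h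
  simp [coeff_one] at this

theorem nonlift_kk (P R : MvPolynomial (Fin 2) kk) (hcop : IsCoprime P R)
    (hP : ∃ g, P = 1 + MvPolynomial.C (ww * ll) * MvPolynomial.X 0 ^ 2 +
      (MvPolynomial.X 1 ^ 2 + MvPolynomial.C ww * MvPolynomial.X 0 ^ 2) * g)
    (hR : ∃ g, R = MvPolynomial.C ll * MvPolynomial.X 0 * (1 + MvPolynomial.X 1) +
      (MvPolynomial.X 1 ^ 2 + MvPolynomial.C ww * MvPolynomial.X 0 ^ 2) * g) : False := by
  obtain ⟨δ, h1, h2, h3, h4⟩ := exists_delta (k := k₀)
  exact nonlift δ h1 ww ll (fun b => h2 _ b) h3 h4 ww_not_sq ll_ne one_add_ll_ne P R hcop hP hR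

end Pool.Agent.N37.HR
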