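import Mathlib

/-!
# The pairing `J θ M B = ∑ i, M i i * θ (B i i)` in characteristic two

`θ` is an additive map with `θ (a ^ 2 * b) = a ^ 2 * θ b`.  For symmetric matrices `M`, `B` the
pairing `J` is adjoint under congruences, and it vanishes when `M * B` is nilpotent.
-/

set_option autoImplicit false
set_option linter.unusedSectionVars false

open Matrix Finset

namespace Pool.Agent.N37.HR

section basic

variable {F : Type*} [CommRing F] [CharP F 2]

/-- a symmetric double sum equals its diagonal in characteristic two -/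
theorem sum_symm_eq_diag {n : Type*} [Fintype n] [DecidableEq n] (s : n → n → F)
    (hs : ∀ i j, s i j = s j i) : ∑ i, ∑ j, s i j = ∑ i, s i i := by
  rw [← Finset.sum_product']
  rw [← Finset.sum_filter_add_sum_filter_not (s := (univ ×ˢ univ : Finset (n × n)))
    (p := fun p => p.1 = p.2)]
  have h0 : ∑ x ∈ ((univ ×ˢ univ : Finset (n × n))).filter (fun p => ¬ p.1 = p.2), s x.1 x.2 = 0 := by
    apply Finset.sum_involution (fun p _ => (p.2, p.1))
    · intro p _
      simp only
      rw [hs p.2 p.1]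
      exact CharTwo.add_self_eq_zero _
    · intro p hp _ h
      simp only [mem_filter] at hp
      exact hp.2 (by rw [Prod.ext_iff] at h; exact h.2)
    · intro p hp
      simp only [mem_filter, mem_product, mem_univ, true_and] at hp ⊢
      exact fun h => hp h.symm
    · intro p _
      rfl
  rw [h0, add_zero]
  symm
  apply Finset.sum_bij (fun i _ => (i, i))
  · intro i _
    simp
  · intro i _ j _ h
    simpa using h
  · intro p hp
    simp only [mem_filter, mem_product, mem_univ, true_and] at hp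
    exact ⟨p.1, mem_univ _, Prod.ext rfl hp⟩
  · intro i _
    rfl

theorem diag_congr {m n : Type*} [Fintype n] [DecidableEq n] (Q : Matrix m n F)
    (M : Matrix n n F) (hM : Mᵀ = M) (i : m) :
    (Q * M * Qᵀ) i i = ∑ j, Q i j ^ 2 * M j j := by
  have h1 : (Q * M * Qᵀ) i i = ∑ j, ∑ l, Q i l * M l j * Q i j := by
    rw [Matrix.mul_apply]
    refine Finset.sum_congr rfl fun j _ => ?_
    rw [Matrix.mul_apply, Finset.sum_mul]
    rfl
  rw [h1, sum_symm_eq_diag (fun j l => Q i l * M l j * Q i j)]
  · exact Finset.sum_congr rfl fun j _ => by ring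
  · intro a b
    have : M b a = M a b := by
      conv_lhs => rw [← hM]
      rfl
    rw [this]
    ring

/-- the pairing -/
def J {n : Type*} [Fintype n] (θ : F →+ F) (M B : Matrix n n F) : F := ∑ i, M i i * θ (B i i)

variable (θ : F →+ F)

theorem J_add_right {n : Type*} [Fintype n] (M B B' : Matrix n n F) :
    J θ M (B + B') = J θ M B + J θ M B' := by
  simp [J, mul_add, Finset.sum_add_distrib]

theorem J_add_left {n : Type*} [Fintype n] (M M' B : Matrix n n F) :
    J θ (M + M') B = J θ M B + J θ M' B := by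
  simp [J, add_mul, Finset.sum_add_distrib]

theorem J_smul_left {n : Type*} [Fintype n] (c : F) (M B : Matrix n n F) :
    J θ (c • M) B = c * J θ M B := by
  simp [J, Finset.mul_sum, mul_assoc]

variable (hθ : ∀ a b, θ (a ^ 2 * b) = a ^ 2 * θ b)
include hθ

theorem J_adj {m n : Type*} [Fintype m] [DecidableEq m] [Fintype n] [DecidableEq n]
    (Q : Matrix m n F) (M : Matrix n n F) (B : Matrix m m F) (hM : Mᵀ = M) (hB : Bᵀ = B) :
    J θ (Q * M * Qᵀ) B = J θ M (Qᵀ * B * Q) := by
  unfold J
  have h1 : ∀ i, (Q * M * Qᵀ) i i = ∑ j, Q i j ^ 2 * M j j := fun i => diag_congr Q M hM i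
  have h2 : ∀ j, (Qᵀ * B * Q) j j = ∑ i, Q i j ^ 2 * B i i := by
    intro j
    have := diag_congr Qᵀ B hB j
    rw [Matrix.transpose_transpose] at this
    rw [this]
    rfl
  simp only [h1, h2, map_sum, hθ, Finset.sum_mul, Finset.mul_sum]
  rw [Finset.sum_comm]
  exact Finset.sum_congr rfl fun j _ => Finset.sum_congr rfl fun i _ => by ring

end basic

section nilp

variable {F : Type*} [Field F] [CharP F 2]

omit [CharP F 2] in
/-- splitting off a kernel vector of a singular symmetric matrix -/
theorem singular_split {n : ℕ} (S : Matrix (Fin (n + 1)) (Fin (n + 1)) F) (hS : Sᵀ = S)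
    (hdet : S.det = 0) :
    ∃ (P : Matrix (Fin (n + 1)) (Fin n) F) (Q : Matrix (Fin n) (Fin (n + 1)) F),
      S * (P * Q) = S ∧ (P * Q)ᵀ * S = S ∧ S = Qᵀ * (Pᵀ * S * P) * Q := by
  obtain ⟨x, hx0, hx⟩ := Matrix.exists_mulVec_eq_zero_iff.2 hdet
  obtain ⟨i, hi⟩ := Function.ne_iff.1 hx0
  have hi' : x i ≠ 0 := hi
  let Pj : Matrix (Fin (n + 1)) (Fin (n + 1)) F := 1 - vecMulVec x (Pi.single i (x i)⁻¹)
  have hSP : S * Pj = S := by
    show S * (1 - vecMulVec x (Pi.single i (x i)⁻¹)) = S
    rw [Matrix.mul_sub, Matrix.mul_one, Matrix.mul_vecMulVec, hx, Matrix.zero_vecMulVec, sub_zero]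
  let P : Matrix (Fin (n + 1)) (Fin n) F := (1 : Matrix _ _ F).submatrix id i.succAbove
  let Q : Matrix (Fin n) (Fin (n + 1)) F := Pj.submatrix i.succAbove id
  have hPQ : P * Q = Pj := by
    ext a b
    have h1 : ((1 : Matrix (Fin (n + 1)) (Fin (n + 1)) F) * Pj) a b = Pj a b := by rw [Matrix.one_mul]
    rw [Matrix.mul_apply, Fin.sum_univ_succAbove _ i] at h1
    have h2 : Pj i b = 0 := by
      simp only [Pj, Matrix.sub_apply, vecMulVec_apply, Pi.single_apply]
      by_cases hib : b = i
      · subst hib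
        simp [hi']
      · rw [Matrix.one_apply_ne (fun h => hib h.symm)]
        simp [hib]
    rw [h2, mul_zero, zero_add] at h1
    rw [Matrix.mul_apply]
    exact h1
  have h1 : S * (P * Q) = S := by rw [hPQ, hSP]
  have h2 : (P * Q)ᵀ * S = S := by
    have := congrArg Matrix.transpose h1
    rw [Matrix.transpose_mul, hS] at this
    exact this
  refine ⟨P, Q, h1, h2, ?_⟩
  calc S = (P * Q)ᵀ * (S * (P * Q)) := by rw [h1, h2]
    _ = Qᵀ * (Pᵀ * S * P) * Q := by
      rw [Matrix.transpose_mul]
      simp only [Matrix.mul_assoc]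

variable (θ : F →+ F) (hθ : ∀ a b, θ (a ^ 2 * b) = a ^ 2 * θ b)
include hθ

theorem J_nilp : ∀ (n : ℕ) (M B : Matrix (Fin n) (Fin n) F), Mᵀ = M → Bᵀ = B →
    (∃ k : ℕ, (M * B) ^ k = 0) → J θ M B = 0 := by
  intro n
  induction n with
  | zero =>
    intro M B _ _ _
    simp [J]
  | succ n ih =>
    intro M B hM hB ⟨k, hk⟩
    have hdet : M.det * B.det = 0 := by
      have h1 : ((M * B) ^ k).det = 0 := by
        rw [hk]
        exact Matrix.det_zero
      rw [Matrix.det_pow, Matrix.det_mul] at h1
      exact pow_eq_zero_iff (n := k) (by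
        rintro rfl
        simp at h1) |>.1 h1
    rcases mul_eq_zero.1 hdet with hd | hd
    · -- `M` singular
      obtain ⟨P, Q, h1, h2, h3⟩ := singular_split M hM hd
      have hM' : (Pᵀ * M * P)ᵀ = Pᵀ * M * P := by
        simp only [Matrix.transpose_mul, Matrix.transpose_transpose, hM, Matrix.mul_assoc]
      have hB' : (Q * B * Qᵀ)ᵀ = Q * B * Qᵀ := by
        simp only [Matrix.transpose_mul, Matrix.transpose_transpose, hB, Matrix.mul_assoc]
      have key : J θ M B = J θ (Pᵀ * M * P) (Q * B * Qᵀ) := by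
        have := J_adj θ hθ Qᵀ (Pᵀ * M * P) B hM' hB
        rw [Matrix.transpose_transpose, ← h3] at this
        exact this
      rw [key]
      apply ih _ _ hM' hB'
      have hform : Pᵀ * M * P * (Q * B * Qᵀ) = Pᵀ * (M * B) * Qᵀ := by
        calc Pᵀ * M * P * (Q * B * Qᵀ) = Pᵀ * (M * (P * Q)) * B * Qᵀ := by
              simp only [Matrix.mul_assoc]
          _ = Pᵀ * (M * B) * Qᵀ := by rw [h1]; simp only [Matrix.mul_assoc]
      have hpow : ∀ l : ℕ, (Pᵀ * (M * B) * Qᵀ) ^ (l + 1) = Pᵀ * (M * B) ^ (l + 1) * Qᵀ := by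
        intro l
        induction l with
        | zero => simp
        | succ l ihl =>
          rw [pow_succ, ihl]
          calc Pᵀ * (M * B) ^ (l + 1) * Qᵀ * (Pᵀ * (M * B) * Qᵀ)
              = Pᵀ * (M * B) ^ (l + 1) * (((P * Q)ᵀ * M) * B) * Qᵀ := by
                rw [Matrix.transpose_mul]; simp only [Matrix.mul_assoc]
            _ = Pᵀ * (M * B) ^ (l + 1 + 1) * Qᵀ := by
                rw [h2, pow_succ (M * B) (l + 1)]; simp only [Matrix.mul_assoc]
      refine ⟨k + 1, ?_⟩
      rw [hform, hpow, pow_succ, hk]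
      simp
    · -- `B` singular
      obtain ⟨P, Q, h1, h2, h3⟩ := singular_split B hB hd
      have hB' : (Pᵀ * B * P)ᵀ = Pᵀ * B * P := by
        simp only [Matrix.transpose_mul, Matrix.transpose_transpose, hB, Matrix.mul_assoc]
      have hM' : (Q * M * Qᵀ)ᵀ = Q * M * Qᵀ := by
        simp only [Matrix.transpose_mul, Matrix.transpose_transpose, hM, Matrix.mul_assoc]
      have key : J θ M B = J θ (Q * M * Qᵀ) (Pᵀ * B * P) := by
        rw [J_adj θ hθ Q M (Pᵀ * B * P) hM hB', ← h3]
      rw [key]
      apply ih _ _ hM' hB'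
      have hform : Q * M * Qᵀ * (Pᵀ * B * P) = Q * (M * B) * P := by
        calc Q * M * Qᵀ * (Pᵀ * B * P) = Q * M * ((P * Q)ᵀ * B) * P := by
              rw [Matrix.transpose_mul]; simp only [Matrix.mul_assoc]
          _ = Q * (M * B) * P := by rw [h2]; simp only [Matrix.mul_assoc]
      have hpow : ∀ l : ℕ, (Q * (M * B) * P) ^ (l + 1) = Q * (M * B) ^ (l + 1) * P := by
        intro l
        induction l with
        | zero => simp
        | succ l ihl =>
          rw [pow_succ, ihl]
          calc Q * (M * B) ^ (l + 1) * P * (Q * (M * B) * P)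
              = Q * (M * B) ^ l * M * (B * (P * Q)) * (M * B) * P := by
                rw [pow_succ]; simp only [Matrix.mul_assoc]
            _ = Q * (M * B) ^ (l + 1 + 1) * P := by
                rw [h1, pow_succ (M * B) (l + 1), pow_succ (M * B) l]
                simp only [Matrix.mul_assoc]
      refine ⟨k + 1, ?_⟩
      rw [hform, hpow, pow_succ, hk]
      simp

end nilp

end Pool.Agent.N37.HR
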