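import Pool.Agent.N37.HR.Final

/-!
# The Lam conjecture (extendedness of stably free modules) fails
-/

set_option autoImplicit false
set_option linter.unusedSectionVars false

open Matrix Polynomial TensorProduct

noncomputable section

namespace Pool.Agent.N37.HR

/-- the global splitting only needs the local statement -/
theorem global_split_of_local (H : ∀ (A : Type) [CommRing A] [IsLocalRing A] (u v : Fin 3 → A[X]),
      u ⬝ᵥ v = 1 → ∃ (s : ℕ) (U : Matrix (Fin 3) (Fin s) A[X]) (V : Matrix (Fin s) (Fin 3) A[X]),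
      U * V = 1 - vecMulVec v u ∧ V * U = 1) :
    ∃ (U V : Matrix (Fin 3) (Fin 3) AA[X]), U * V = ET ∧ V * U = ET.map (fun p => C (p.eval 0)) := by
  apply BQ.patch ET ET_idem
  intro m hm
  set φ : AA[X] →+* (Localization.AtPrime m)[X] :=
    Polynomial.mapRingHom (algebraMap AA (Localization.AtPrime m)) with hφ
  have h1 : ET.map φ = 1 - vecMulVec (φ ∘ vT) (φ ∘ uT) := by
    ext i j : 2
    simp only [ET, Matrix.map_apply, Matrix.sub_apply, vecMulVec_apply, map_sub, map_mul,
      Function.comp_apply]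
    rw [Matrix.one_apply, Matrix.one_apply]
    split_ifs
    · rw [map_one φ]
    · rw [map_zero φ]
  have h2 : (φ ∘ uT) ⬝ᵥ (φ ∘ vT) = 1 := by
    have := congrArg φ uv_one
    rw [map_one] at this
    rw [← this]
    simp only [dotProduct, map_sum, map_mul, Function.comp_apply]
  rw [h1]
  exact H _ _ _ h2

theorem local_false : ¬ ∀ (A : Type) [CommRing A] [IsLocalRing A] (u v : Fin 3 → A[X]),
      u ⬝ᵥ v = 1 → ∃ (s : ℕ) (U : Matrix (Fin 3) (Fin s) A[X]) (V : Matrix (Fin s) (Fin 3) A[X]),
      U * V = 1 - vecMulVec v u ∧ V * U = 1 := by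
  intro H
  obtain ⟨U, V, hUV, hVU⟩ := global_split_of_local H
  let ev : AA[X] →+* AA := Polynomial.evalRingHom 1
  let e : Fin 3 → AA := ![1, 0, 0]
  let u1 : Fin 3 → AA := fun i => ev (uT i)
  have hv1 : (fun i => ev (vT i)) = v1 := by
    ext1 i
    fin_cases i <;> simp [vT, v1, ev]
  have huv : u1 ⬝ᵥ v1 = 1 := by
    have := congrArg ev uv_one
    rw [map_one] at this
    rw [← this, ← hv1]
    simp only [dotProduct, map_sum, map_mul, u1]
  have hee : e ⬝ᵥ e = 1 := by
    simp [e, dotProduct, Fin.sum_univ_three]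
  have h1 : U.map ev * V.map ev = 1 - vecMulVec v1 u1 := by
    rw [← Matrix.map_mul, hUV]
    ext1 i j
    simp only [ET, Matrix.map_apply, Matrix.sub_apply, vecMulVec_apply, map_sub, map_mul]
    rw [← hv1]
    congr 1
    rw [Matrix.one_apply, Matrix.one_apply]
    split_ifs
    · exact map_one ev
    · exact map_zero ev
  have h2 : V.map ev * U.map ev = 1 - vecMulVec e e := by
    rw [← Matrix.map_mul, hVU]
    ext1 i j
    have hv0 : ∀ i, (vT i).eval 0 = e i := by
      intro i
      fin_cases i <;> simp [vT, e]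
    have hu0 : ∀ i, (uT i).eval 0 = e i := by
      intro i
      fin_cases i <;> simp [uT, e]
    show ev (C ((ET i j).eval 0)) = _
    have : ev (C ((ET i j).eval 0)) = (ET i j).eval 0 := by
      show (C ((ET i j).eval 0)).eval 1 = _
      rw [eval_C]
    rw [this, ET, Matrix.sub_apply, vecMulVec_apply, Matrix.sub_apply, vecMulVec_apply, eval_sub,
      eval_mul, hv0, hu0, Matrix.one_apply, Matrix.one_apply]
    congr 1
    split_ifs <;> simp
  obtain ⟨σ, σ', hσ, hσv⟩ := complete _ _ v1 u1 e huv hee h1 h2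
  exact no_completion σ σ' hσ hσv

section descend

variable {A : Type} [CommRing A] [IsLocalRing A] (Q : Type) [AddCommGroup Q] [Module A Q]

/-- evaluation at the origin -/
def ev0 (A : Type) [CommRing A] : MvPolynomial (Fin 1) A →ₐ[A] A := MvPolynomial.aeval fun _ => 0

/-- reduction at the origin, linear -/
def red : (MvPolynomial (Fin 1) A ⊗[A] Q) →ₗ[A] Q :=
  (TensorProduct.lid A Q).toLinearMap ∘ₗ (LinearMap.rTensor Q (ev0 A).toLinearMap)

theorem red_tmul (s : MvPolynomial (Fin 1) A) (q : Q) : red Q (s ⊗ₜ[A] q) = ev0 A s • q := by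
  simp [red]

instance : RingHomSurjective (ev0 A).toRingHom :=
  ⟨fun a => ⟨MvPolynomial.C a, by simp [ev0]⟩⟩

/-- reduction at the origin, semilinear -/
def redS : (MvPolynomial (Fin 1) A ⊗[A] Q) →ₛₗ[(ev0 A).toRingHom] Q where
  toFun := red Q
  map_add' := map_add _
  map_smul' := by
    intro s x
    induction x using TensorProduct.induction_on with
    | zero => simp
    | add x y hx hy => rw [smul_add, map_add, hx, hy, map_add, smul_add]
    | tmul t q =>
      rw [TensorProduct.smul_tmul', red_tmul, red_tmul, smul_eq_mul, map_mul, mul_smul]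
      rfl

theorem free_of_tensor (n m : ℕ)
    (e : ((MvPolynomial (Fin 1) A ⊗[A] Q) × (Fin n → MvPolynomial (Fin 1) A))
      ≃ₗ[MvPolynomial (Fin 1) A] (Fin m → MvPolynomial (Fin 1) A)) : Module.Free A Q := by
  let i : (MvPolynomial (Fin 1) A ⊗[A] Q) →ₗ[MvPolynomial (Fin 1) A]
      (Fin m → MvPolynomial (Fin 1) A) :=
    e.toLinearMap ∘ₗ LinearMap.inl _ _ _
  let s : (Fin m → MvPolynomial (Fin 1) A) →ₗ[MvPolynomial (Fin 1) A]
      (MvPolynomial (Fin 1) A ⊗[A] Q) :=
    LinearMap.fst _ _ _ ∘ₗ e.symm.toLinearMap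
  have hsi : ∀ x, s (i x) = x := by
    intro x
    simp [s, i]
  have hred : ∀ q : Q, red Q ((1 : MvPolynomial (Fin 1) A) ⊗ₜ[A] q) = q := by
    intro q
    rw [red_tmul, map_one, one_smul]
  have hproj : Module.Projective A (MvPolynomial (Fin 1) A ⊗[A] Q) := by
    refine Module.Projective.of_split (i.restrictScalars A) (s.restrictScalars A) ?_
    apply LinearMap.ext
    intro x
    exact hsi x
  have hprojQ : Module.Projective A Q := by
    refine Module.Projective.of_split (TensorProduct.mk A (MvPolynomial (Fin 1) A) Q 1) (red Q) ?_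
    apply LinearMap.ext
    intro q
    exact hred q
  have hfin : Module.Finite (MvPolynomial (Fin 1) A) (MvPolynomial (Fin 1) A ⊗[A] Q) :=
    Module.Finite.of_surjective s fun x => ⟨i x, hsi x⟩
  have hfinQ : Module.Finite A Q :=
    Module.Finite.of_surjective (redS Q) fun q => ⟨1 ⊗ₜ[A] q, hred q⟩
  exact Module.free_of_flat_of_isLocalRing

end descend

/-- extendedness of stably free modules over `A[x_1, ..., x_d]`, for all `A` and `d` -/
def LamStatement : Prop :=
  ∀ (A : Type) [CommRing A] (d : ℕ) (P : Type) [AddCommGroup P]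
      [Module (MvPolynomial (Fin d) A) P],
      (∃ n m : ℕ, Nonempty ((P × (Fin n → MvPolynomial (Fin d) A)) ≃ₗ[MvPolynomial (Fin d) A]
        (Fin m → MvPolynomial (Fin d) A))) →
      ∃ (Q : Type) (_ : AddCommGroup Q) (_ : Module A Q),
        Nonempty (P ≃ₗ[MvPolynomial (Fin d) A] TensorProduct A (MvPolynomial (Fin d) A) Q)

theorem hermite_mv (H : LamStatement) (A : Type) [CommRing A] [IsLocalRing A] :
    Hermite (MvPolynomial (Fin 1) A) := by
  intro M _ _ ⟨n, m, ⟨e⟩⟩
  obtain ⟨Q, _, _, ⟨f⟩⟩ := H A 1 M ⟨n, m, ⟨e⟩⟩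
  have hQ : Module.Free A Q := free_of_tensor Q n m
    ((LinearEquiv.prodCongr f.symm (LinearEquiv.refl _ _)).trans e)
  exact Module.Free.of_equiv f.symm

theorem lam_false : ¬ LamStatement := by
  intro H
  apply local_false
  intro A _ _ u v huv
  let φ : MvPolynomial (Fin 1) A ≃ₐ[A] A[X] := MvPolynomial.uniqueAlgEquiv A (Fin 1)
  obtain ⟨s, U, V, h1, h2⟩ := split_of_hermite (hermite_mv H A) (fun i => φ.symm (u i))
    (fun i => φ.symm (v i)) (by
      have := congrArg φ.symm huv
      rw [map_one] at this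
      rw [← this]
      simp only [dotProduct, map_sum, map_mul])
  refine ⟨s, U.map φ.toRingEquiv.toRingHom, V.map φ.toRingEquiv.toRingHom, ?_, ?_⟩
  · rw [← Matrix.map_mul, h1]
    ext1 i j
    simp only [Matrix.map_apply, Matrix.sub_apply, vecMulVec_apply, map_sub, map_mul]
    have hφ : ∀ x : A[X], φ.toRingEquiv.toRingHom (φ.symm x) = x := fun x => φ.apply_symm_apply x
    rw [hφ, hφ]
    congr 1
    rw [Matrix.one_apply, Matrix.one_apply]
    split_ifs
    · exact map_one _
    · exact map_zero _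
  · rw [← Matrix.map_mul, h2]
    exact Matrix.map_one _ (map_zero _) (map_one _)

end Pool.Agent.N37.HR
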