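import Pool.Agent.N37.HR.Fld
import Pool.Agent.H94R2.BQ.C

/-!
# The ring `A = k + f k[X, Y]` and the unimodular row over `A[T]`
-/

set_option autoImplicit false
set_option linter.unusedSectionVars false

open Matrix Polynomial

noncomputable section

namespace Pool.Agent.N37.HR

/-- `k[X, Y]` -/
abbrev R₀ : Type := MvPolynomial (Fin 2) kk

/-- the variable `X` -/
def xx : R₀ := MvPolynomial.X 0

/-- the variable `Y` -/
def yy : R₀ := MvPolynomial.X 1

/-- a constant -/
abbrev cc (a : kk) : R₀ := MvPolynomial.C a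

/-- `f = Y² + w X²` -/
def ff : R₀ := yy ^ 2 + cc ww * xx ^ 2

/-- `A = k + f k[X, Y]` -/
def AA : Subring R₀ where
  carrier := {g | ∃ (c : kk) (h : R₀), g = cc c + ff * h}
  mul_mem' := by
    rintro _ _ ⟨c, h, rfl⟩ ⟨c', h', rfl⟩
    refine ⟨c * c', cc c * h' + h * cc c' + ff * h * h', ?_⟩
    rw [show cc (c * c') = cc c * cc c' from map_mul _ _ _]
    ring
  one_mem' := ⟨1, 0, by simp [cc]⟩
  add_mem' := by
    rintro _ _ ⟨c, h, rfl⟩ ⟨c', h', rfl⟩
    refine ⟨c + c', h + h', ?_⟩
    rw [show cc (c + c') = cc c + cc c' from map_add _ _ _]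
    ring
  zero_mem' := ⟨0, 0, by simp [cc]⟩
  neg_mem' := by
    rintro _ ⟨c, h, rfl⟩
    refine ⟨-c, -h, ?_⟩
    rw [show cc (-c) = -cc c from map_neg _ _]
    ring

/-- constants in `A` -/
def cst : kk →+* AA := (MvPolynomial.C : kk →+* R₀).codRestrict AA fun c => ⟨c, 0, by simp [cc]⟩

/-- `f h` as an element of `A` -/
def el (h : R₀) : AA := ⟨ff * h, 0, h, by simp [cc]⟩

/-- evaluation at the origin -/
def eps : AA →+* kk := (MvPolynomial.constantCoeff : R₀ →+* kk).comp AA.subtype

theorem el_coe (h : R₀) : (el h : R₀) = ff * h := rfl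

theorem cst_coe (c : kk) : (cst c : R₀) = cc c := rfl

theorem ff_const : MvPolynomial.constantCoeff ff = 0 := by
  simp [ff, xx, yy, cc]

theorem eps_el (h : R₀) : eps (el h) = 0 := by
  show MvPolynomial.constantCoeff (ff * h) = 0
  rw [map_mul, ff_const, zero_mul]

theorem eps_cst (c : kk) : eps (cst c) = c := by
  show MvPolynomial.constantCoeff (MvPolynomial.C c) = c
  simp

theorem mem_form (a : AA) : ∃ h : R₀, (a : R₀) = cc (eps a) + ff * h := by
  obtain ⟨g, c, h, rfl⟩ := a
  refine ⟨h, ?_⟩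
  have : eps ⟨cc c + ff * h, c, h, rfl⟩ = c := by
    show MvPolynomial.constantCoeff (cc c + ff * h) = c
    rw [map_add, map_mul, ff_const, zero_mul, add_zero]
    simp [cc]
  rw [this]

/-- `ν = l / (1 + l)` -/
def nn : kk := ll / (1 + ll)

theorem nn_rel : ll + nn + ll * nn = 0 := by
  have h1 : (1 + ll) * nn = ll := by
    rw [nn]
    field_simp [one_add_ll_ne]
  have h2 : ll + nn + ll * nn = ll + (1 + ll) * nn := by ring
  rw [h2, h1]
  exact CharTwo.add_self_eq_zero _

/-- the column `v(T)` -/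
def vT : Fin 3 → AA[X] :=
  ![1 + C (el (cc ll * yy)) * X ^ 3, C (el (cc ll * cc ww * xx)) * X ^ 3,
    C (el (cc ll)) * X ^ 2 + C (el (cc ll * yy)) * X ^ 3]

/-- the row `u(T)` -/
def uT : Fin 3 → AA[X] :=
  ![1 + C (el (cc ll * yy)) * X ^ 3 + C (el (cc ll * cc nn * ff * yy)) * X ^ 5,
    C (el (cc ll * cc nn * xx * yy)) * X ^ 4,
    C (el (cc nn * yy)) * X ^ 3 + C (el (cc nn * cc ll * yy ^ 2)) * X ^ 4 +
      C (el (cc nn * cc ll * ff * yy)) * X ^ 5]

theorem two_R₀ : (2 : R₀) = 0 := by
  have h1 : (2 : kk) = 0 := CharTwo.two_eq_zero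
  have h2 : MvPolynomial.C (2 : kk) = (MvPolynomial.C (0 : kk) : R₀) := congrArg _ h1
  rw [map_ofNat, map_zero] at h2
  exact h2

theorem uv_one : uT ⬝ᵥ vT = 1 := by
  apply Polynomial.map_injective AA.subtype Subtype.coe_injective
  have h2 : (2 : R₀[X]) = 0 := by
    have : (2 : R₀[X]) = C (2 : R₀) := by rw [map_ofNat]
    rw [this, two_R₀, C_0]
  have hn : (C (cc ll) + C (cc nn) + C (cc ll) * C (cc nn) : R₀[X]) = 0 := by
    rw [← C_mul, ← C_add, ← C_add]
    have : cc ll + cc nn + cc ll * cc nn = cc (ll + nn + ll * nn) := by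
      simp [cc]
    rw [this, nn_rel]
    simp [cc]
  have hF : (C ff : R₀[X]) = C yy ^ 2 + C (cc ww) * C xx ^ 2 := by
    rw [ff, C_add, C_mul, C_pow, C_pow]
  simp only [dotProduct, Fin.sum_univ_three, uT, vT, Matrix.cons_val_zero, Matrix.cons_val_one,
    Matrix.cons_val_two, Matrix.head_cons, Matrix.tail_cons]
  simp only [Polynomial.map_add, Polynomial.map_mul, Polynomial.map_one, Polynomial.map_pow,
    Polynomial.map_X, Polynomial.map_C, Subring.subtype_apply, el_coe, C_mul, C_pow]
  generalize (C (cc ll) : R₀[X]) = L at *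
  generalize (C (cc nn) : R₀[X]) = N at *
  generalize (C (cc ww) : R₀[X]) = W at *
  generalize (C xx : R₀[X]) = x at *
  generalize (C yy : R₀[X]) = y at *
  generalize (C ff : R₀[X]) = F at *
  generalize (X : R₀[X]) = T at *
  linear_combination (L * F * y * T ^ 3 + F ^ 2 * y * T ^ 5 *
    (L * N + L ^ 2 * N * F * y * T ^ 3 + L ^ 2 * N * F * T ^ 2)) * h2 +
    (F ^ 2 * y ^ 2 * L * T ^ 6) * hn - F ^ 2 * y * L ^ 2 * N * T ^ 7 * hF

/-- the idempotent matrix -/
def ET : Matrix (Fin 3) (Fin 3) AA[X] := 1 - vecMulVec vT uT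

theorem ET_idem : ET * ET = ET := by
  have h : vecMulVec vT uT * vecMulVec vT uT = vecMulVec vT uT := by
    rw [vecMulVec_mul_vecMulVec, uv_one, one_smul]
  simp only [ET, Matrix.sub_mul, Matrix.mul_sub, Matrix.one_mul, Matrix.mul_one, h]
  simp

/-- an idempotent matrix with free image splits -/
theorem split_of_free {R : Type} [CommRing R] {n : ℕ} (E : Matrix (Fin n) (Fin n) R)
    (hE : E * E = E) [Module.Free R (LinearMap.range (Matrix.toLin' E))] :
    ∃ (s : ℕ) (U : Matrix (Fin n) (Fin s) R) (V : Matrix (Fin s) (Fin n) R),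
      U * V = E ∧ V * U = 1 := by
  set P := LinearMap.range (Matrix.toLin' E) with hP
  let b0 := Module.Free.chooseBasis R P
  let s := Fintype.card (Module.Free.ChooseBasisIndex R P)
  let b : Module.Basis (Fin s) R P := b0.reindex (Fintype.equivFin _)
  have hEE : ∀ p : P, (Matrix.toLin' E).rangeRestrict (p : Fin n → R) = p := by
    rintro ⟨p, q, rfl⟩
    apply Subtype.ext
    show Matrix.toLin' E (Matrix.toLin' E q) = Matrix.toLin' E q
    rw [← LinearMap.comp_apply, ← Matrix.toLin'_mul, hE]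
  refine ⟨s, LinearMap.toMatrix' (P.subtype.comp (b.equivFun.symm : (Fin s → R) →ₗ[R] P)),
    LinearMap.toMatrix' ((b.equivFun : P →ₗ[R] (Fin s → R)).comp
      (Matrix.toLin' E).rangeRestrict), ?_, ?_⟩
  · rw [← LinearMap.toMatrix'_comp]
    have : (P.subtype.comp (b.equivFun.symm : (Fin s → R) →ₗ[R] P)).comp
      ((b.equivFun : P →ₗ[R] (Fin s → R)).comp (Matrix.toLin' E).rangeRestrict) =
        Matrix.toLin' E := by
      apply LinearMap.ext
      intro x
      simp
    rw [this, LinearMap.toMatrix'_toLin']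
  · rw [← LinearMap.toMatrix'_comp]
    have : ((b.equivFun : P →ₗ[R] (Fin s → R)).comp (Matrix.toLin' E).rangeRestrict).comp
      (P.subtype.comp (b.equivFun.symm : (Fin s → R) →ₗ[R] P)) = LinearMap.id := by
      apply LinearMap.ext
      intro x
      simp only [LinearMap.comp_apply, LinearEquiv.coe_coe, Submodule.subtype_apply, hEE,
        LinearEquiv.apply_symm_apply, LinearMap.id_apply]
    rw [this, LinearMap.toMatrix'_id]

/-- the kernel of a unimodular row is stably free -/
theorem stably_free {R : Type} [CommRing R] (u v : Fin 3 → R) (huv : u ⬝ᵥ v = 1) :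
    Nonempty ((LinearMap.range (Matrix.toLin' (1 - vecMulVec v u)) × (Fin 1 → R)) ≃ₗ[R]
      (Fin 3 → R)) := by
  set E : Matrix (Fin 3) (Fin 3) R := 1 - vecMulVec v u with hE
  have hEx : ∀ x, Matrix.toLin' E x = x - (u ⬝ᵥ x) • v := by
    intro x
    rw [Matrix.toLin'_apply, hE, Matrix.sub_mulVec, Matrix.one_mulVec, vecMulVec_mulVec]
    simp
  have hv : Matrix.toLin' E v = 0 := by
    rw [hEx, huv, one_smul, sub_self]
  have hu : ∀ p ∈ LinearMap.range (Matrix.toLin' E), u ⬝ᵥ p = 0 := by
    rintro _ ⟨x, rfl⟩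
    rw [hEx, dotProduct_sub, dotProduct_smul, huv, smul_eq_mul, mul_one, sub_self]
  have hEp : ∀ p ∈ LinearMap.range (Matrix.toLin' E), Matrix.toLin' E p = p := by
    intro p hp
    rw [hEx, hu p hp, zero_smul, sub_zero]
  let F : (LinearMap.range (Matrix.toLin' E) × (Fin 1 → R)) →ₗ[R] (Fin 3 → R) :=
    { toFun := fun p => (p.1 : Fin 3 → R) + p.2 0 • v
      map_add' := by
        intro p q
        simp only [Prod.fst_add, Prod.snd_add, Submodule.coe_add, Pi.add_apply, add_smul]
        abel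
      map_smul' := by
        intro c p
        simp only [Prod.smul_fst, Prod.smul_snd, Submodule.coe_smul, Pi.smul_apply, smul_eq_mul,
          RingHom.id_apply, smul_add, mul_smul] }
  let G : (Fin 3 → R) →ₗ[R] (LinearMap.range (Matrix.toLin' E) × (Fin 1 → R)) :=
    { toFun := fun x => ((Matrix.toLin' E).rangeRestrict x, fun _ => u ⬝ᵥ x)
      map_add' := by
        intro p q
        rw [map_add]
        refine Prod.ext rfl ?_
        funext _
        show u ⬝ᵥ (p + q) = u ⬝ᵥ p + u ⬝ᵥ q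
        exact dotProduct_add _ _ _
      map_smul' := by
        intro c p
        rw [map_smul]
        refine Prod.ext rfl ?_
        funext _
        show u ⬝ᵥ (c • p) = c * (u ⬝ᵥ p)
        rw [dotProduct_smul, smul_eq_mul] }
  refine ⟨LinearEquiv.ofLinearMap F G ?_ ?_⟩
  · apply LinearMap.ext
    intro x
    show Matrix.toLin' E x + (u ⬝ᵥ x) • v = x
    rw [hEx]
    abel
  · apply LinearMap.ext
    rintro ⟨⟨p, hp⟩, a⟩
    show ((Matrix.toLin' E).rangeRestrict (p + a 0 • v), fun _ => u ⬝ᵥ (p + a 0 • v)) = _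
    refine Prod.ext ?_ ?_
    · apply Subtype.ext
      show Matrix.toLin' E (p + a 0 • v) = p
      rw [map_add, map_smul, hv, smul_zero, add_zero, hEp p hp]
    · funext i
      show u ⬝ᵥ (p + a 0 • v) = a i
      rw [dotProduct_add, dotProduct_smul, hu p hp, huv, zero_add, smul_eq_mul, mul_one]
      congr 1
      exact Subsingleton.elim _ _

/-- the Hermite property -/
def Hermite (A : Type) [CommRing A] : Prop :=
  ∀ (M : Type) [AddCommGroup M] [Module A M],
    (∃ n m : ℕ, Nonempty ((M × (Fin n → A)) ≃ₗ[A] (Fin m → A))) → Module.Free A M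

theorem split_of_hermite {R : Type} [CommRing R] (H : Hermite R) (u v : Fin 3 → R)
    (huv : u ⬝ᵥ v = 1) :
    ∃ (s : ℕ) (U : Matrix (Fin 3) (Fin s) R) (V : Matrix (Fin s) (Fin 3) R),
      U * V = 1 - vecMulVec v u ∧ V * U = 1 := by
  have hE : (1 - vecMulVec v u) * (1 - vecMulVec v u) = 1 - vecMulVec v u := by
    have h : vecMulVec v u * vecMulVec v u = vecMulVec v u := by
      rw [vecMulVec_mul_vecMulVec, huv, one_smul]
    simp only [Matrix.sub_mul, Matrix.mul_sub, Matrix.one_mul, Matrix.mul_one, h]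
    simp
  have hfree : Module.Free R (LinearMap.range (Matrix.toLin' (1 - vecMulVec v u))) :=
    H _ ⟨1, 3, stably_free _ _ huv⟩
  exact split_of_free _ hE

theorem hermite_local (A : Type) [CommRing A] [IsLocalRing A] : Hermite A := by
  intro M _ _ ⟨n, m, ⟨e⟩⟩
  have hp : Module.Projective A M := by
    apply Module.Projective.of_split
      ((e : (M × (Fin n → A)) →ₗ[A] (Fin m → A)).comp (LinearMap.inl A M (Fin n → A)))
      ((LinearMap.fst A M (Fin n → A)).comp (e.symm : (Fin m → A) →ₗ[A] (M × (Fin n → A))))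
    apply LinearMap.ext
    intro x
    simp
  have hf : Module.Finite A M := by
    apply Module.Finite.of_surjective
      ((LinearMap.fst A M (Fin n → A)).comp (e.symm : (Fin m → A) →ₗ[A] (M × (Fin n → A))))
    intro x
    exact ⟨e (x, 0), by simp⟩
  exact Module.free_of_flat_of_isLocalRing

theorem global_split (H : ∀ (A : Type) [CommRing A], Hermite A → Hermite A[X]) :
    ∃ (U V : Matrix (Fin 3) (Fin 3) AA[X]), U * V = ET ∧ V * U = ET.map (fun p => C (p.eval 0)) := by
  apply BQ.patch ET ET_idem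
  intro m hm
  set φ : AA[X] →+* (Localization.AtPrime m)[X] :=
    Polynomial.mapRingHom (algebraMap AA (Localization.AtPrime m)) with hφ
  have hloc := H (Localization.AtPrime m) (hermite_local _)
  have h1 : ET.map φ = 1 - vecMulVec (φ ∘ vT) (φ ∘ uT) := by
    ext i j : 2
    simp only [ET, Matrix.map_apply, Matrix.sub_apply, vecMulVec_apply, map_sub, map_mul,
      Function.comp_apply]
    rw [Matrix.one_apply, Matrix.one_apply]
    split_ifs
    · rw [map_one φ]
    · rw [map_zero φ]
  have h2 : (φ ∘ uT) ⬝ᵥ (φ ∘ vT) = 1 := by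
    have := congrArg φ uv_one
    rw [map_one] at this
    rw [← this]
    simp only [dotProduct, map_sum, map_mul, Function.comp_apply]
  rw [h1]
  exact split_of_hermite hloc _ _ h2

end Pool.Agent.N37.HR
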